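import Pool.Agent.V7H80.GC.Pts
import Pool.Agent.Y742.CN.Main
import Pool.Agent.Y849.HC.Hyp

/-!
# Potential density over the field of algebraic numbers, from fibrations in double covers of lines
-/

set_option autoImplicit false
set_option linter.unusedSectionVars false

open MvPolynomial Pool.Agent.Y742.GG

namespace Pool.Agent.V7H80.GC

section transport

variable {Ω Ω' K : Type} [Field Ω] [Field Ω'] [Field K] [Algebra Ω K] [Algebra Ω' K]
  (φ : Ω' ≃+* Ω) (hφ : ∀ a, algebraMap Ω K (φ a) = algebraMap Ω' K a)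

/-- an intermediate field over the other copy of the field of constants -/
def tr (L : IntermediateField Ω K) : IntermediateField Ω' K :=
  { L.toSubfield with
    algebraMap_mem' := fun a => by rw [← hφ]; exact L.algebraMap_mem _ }

lemma mem_tr (L : IntermediateField Ω K) (a : K) : a ∈ tr φ hφ L ↔ a ∈ L := Iff.rfl

/-- the two copies of an intermediate field -/
def trEquiv (L : IntermediateField Ω K) : L ≃+* tr φ hφ L where
  toFun a := ⟨a.1, a.2⟩
  invFun a := ⟨a.1, a.2⟩
  left_inv _ := rfl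
  right_inv _ := rfl
  map_mul' _ _ := rfl
  map_add' _ _ := rfl

lemma algebraMap_comp_trEquiv (L : IntermediateField Ω K) :
    (algebraMap (tr φ hφ L) K).comp (trEquiv φ hφ L : L →+* tr φ hφ L) = algebraMap L K := rfl

lemma isAlgebraic_tr {L : IntermediateField Ω K} {a : K} (h : IsAlgebraic (tr φ hφ L) a) :
    IsAlgebraic L a := by
  refine IsAlgebraic.of_ringHom_of_comp_eq (f := ((trEquiv φ hφ L).symm : tr φ hφ L →+* L))
    (g := RingHom.id K) (a := a) h (trEquiv φ hφ L).symm.surjective Function.injective_id ?_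
  ext b
  rfl

lemma adjoin_tr {L : IntermediateField Ω K} {S : Set K}
    (h : IntermediateField.adjoin L S = ⊤) : IntermediateField.adjoin (tr φ hφ L) S = ⊤ := by
  rw [eq_top_iff]
  intro b _
  let M : IntermediateField L K :=
    { (IntermediateField.adjoin (tr φ hφ L) S).toSubfield with
      algebraMap_mem' := fun a =>
        (IntermediateField.adjoin (tr φ hφ L) S).algebraMap_mem (trEquiv φ hφ L a) }
  have h1 : IntermediateField.adjoin L S ≤ M := by
    rw [IntermediateField.adjoin_le_iff]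
    exact IntermediateField.subset_adjoin (tr φ hφ L) S
  have h2 : b ∈ IntermediateField.adjoin L S := by
    rw [h]
    trivial
  exact h1 h2

include φ hφ in
lemma adjoin_base {S : Set K}
    (h : IntermediateField.adjoin Ω S = ⊤) : IntermediateField.adjoin Ω' S = ⊤ := by
  rw [eq_top_iff]
  intro b _
  let M : IntermediateField Ω K :=
    { (IntermediateField.adjoin Ω' S).toSubfield with
      algebraMap_mem' := fun a => by
        have h1 := (IntermediateField.adjoin Ω' S).algebraMap_mem (φ.symm a)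
        rw [← hφ, RingEquiv.apply_symm_apply] at h1
        exact h1 }
  have h1 : IntermediateField.adjoin Ω S ≤ M := by
    rw [IntermediateField.adjoin_le_iff]
    exact IntermediateField.subset_adjoin Ω' S
  have h2 : b ∈ IntermediateField.adjoin Ω S := by
    rw [h]
    trivial
  exact h1 h2

lemma dcl_tr {L : IntermediateField Ω K} (h : IsDoubleCoverOfLine L) :
    IsDoubleCoverOfLine (tr φ hφ L) := by
  obtain ⟨t, w, Q, ht, hw, hdeg, hQ, hg⟩ := h
  set e : L →+* tr φ hφ L := (trEquiv φ hφ L : L →+* tr φ hφ L) with he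
  refine ⟨t, w, Q.map e, fun h => ht (isAlgebraic_tr φ hφ h), ?_, ?_, ?_, adjoin_tr φ hφ hg⟩
  · rw [hw, Polynomial.aeval_def, Polynomial.aeval_def, Polynomial.eval₂_map, he,
      algebraMap_comp_trEquiv]
  · exact Polynomial.natDegree_map_le.trans hdeg
  · rintro ⟨c, R, hc⟩
    refine hQ ⟨(trEquiv φ hφ L).symm c, R.map ((trEquiv φ hφ L).symm : tr φ hφ L →+* L), ?_⟩
    apply Polynomial.map_injective e (trEquiv φ hφ L).injective
    rw [hc, Polynomial.map_mul, Polynomial.map_pow, Polynomial.map_map, Polynomial.map_C, he,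
      show (trEquiv φ hφ L : L →+* tr φ hφ L).comp
        ((trEquiv φ hφ L).symm : tr φ hφ L →+* L) = RingHom.id _ from rfl, Polynomial.map_id]
    rfl

end transport

/-- the algebraic numbers -/
abbrev Qb : Type := AlgebraicClosure ℚ

lemma isAlgebraic_Qb : Algebra.IsAlgebraic ℚ Qb := AlgebraicClosure.isAlgebraic ℚ

lemma finite_adjoin (S : Set Qb) (hS : S.Finite) :
    FiniteDimensional ℚ (IntermediateField.adjoin ℚ S) := by
  have := isAlgebraic_Qb
  have := hS.to_subtype
  apply IntermediateField.finiteDimensional_adjoin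
  intro a _
  exact (Algebra.IsAlgebraic.isAlgebraic a).isIntegral

/-- density for a hypersurface model -/
theorem dens_model {K : Type} [Field K] [Algebra Qb K] {N m : ℕ} {F : MvPolynomial (Fin N) Qb}
    (hF : Irreducible F) {y : Fin N → K} (hy : IsGenericPoint F y)
    (L : Fin m → IntermediateField Qb K) (hL : ∀ i, IsDoubleCoverOfLine (L i))
    (hinv : ∀ a : K, (∀ i, IsAlgebraic (L i) a) → IsAlgebraic Qb a) :
    ∃ L' : IntermediateField ℚ Qb, FiniteDimensional ℚ L' ∧
      ∀ G : MvPolynomial (Fin N) Qb, aeval y G ≠ 0 →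
        ∃ p : Fin N → Qb, (∀ l, p l ∈ L') ∧ aeval p F = 0 ∧ aeval p G ≠ 0 := by
  classical
  have halgQ := isAlgebraic_Qb
  -- a number field of definition
  set k : IntermediateField ℚ Qb := IntermediateField.adjoin ℚ (F.coeffs : Set Qb) with hk
  have hkfin : FiniteDimensional ℚ k := finite_adjoin _ (Finset.finite_toSet _)
  obtain ⟨F₁, hF₁⟩ : ∃ F₁ : MvPolynomial (Fin N) k, map (algebraMap k Qb) F₁ = F := by
    have h1 : F ∈ Set.range (map (algebraMap k Qb) : MvPolynomial (Fin N) k → _) := by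
      rw [mem_range_map_iff_coeffs_subset]
      intro a ha
      exact ⟨⟨a, IntermediateField.subset_adjoin _ _ ha⟩, rfl⟩
    exact h1
  have halgk : Algebra.IsAlgebraic k Qb := Algebra.IsAlgebraic.tower_top (K := ℚ) k
  have hcl : IsAlgClosure k Qb := ⟨inferInstance, inferInstance⟩
  set φ : AlgebraicClosure k ≃ₐ[k] Qb := IsAlgClosure.equiv k (AlgebraicClosure k) Qb with hφdef
  let alg' : Algebra (AlgebraicClosure k) K :=
    ((algebraMap Qb K).comp (φ : AlgebraicClosure k →+* Qb)).toAlgebra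
  have hφ : ∀ a, algebraMap Qb K ((φ : AlgebraicClosure k ≃+* Qb) a) =
      algebraMap (AlgebraicClosure k) K a := fun _ => rfl
  have : NumberField k := NumberField.mk
  have hFG : FG k := fg_of_numberField k
  -- transport of polynomials
  set ψ : Qb →+* AlgebraicClosure k := (φ.symm : Qb →+* AlgebraicClosure k) with hψ
  have hFψ : map ψ F = map (algebraMap k (AlgebraicClosure k)) F₁ := by
    have h1 : ψ.comp (algebraMap k Qb) = algebraMap k (AlgebraicClosure k) :=
      RingHom.ext fun a => φ.symm.commutes a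
    rw [← hF₁, map_map, h1]
  have haev : ∀ P : MvPolynomial (Fin N) Qb, aeval y (map ψ P) = aeval y P := by
    intro P
    rw [aeval_def, aeval_def, eval₂_map]
    congr 1
    ext a
    change algebraMap Qb K (φ (φ.symm a)) = _
    rw [AlgEquiv.apply_symm_apply]
  have hψinj : Function.Injective ψ := φ.symm.injective
  let ψe : MvPolynomial (Fin N) Qb ≃+* MvPolynomial (Fin N) (AlgebraicClosure k) :=
    mapEquiv (Fin N) (φ.symm : Qb ≃+* AlgebraicClosure k)
  have hψe : ∀ P, ψe P = map ψ P := fun P => rfl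
  have hirr : Irreducible (map (algebraMap k (AlgebraicClosure k)) F₁) := by
    rw [← hFψ, ← hψe]
    exact (MulEquiv.irreducible_iff ψe).2 hF
  have hgp : IsGenericPoint (map (algebraMap k (AlgebraicClosure k)) F₁) y := by
    constructor
    · intro P
      obtain ⟨P', rfl⟩ := ψe.surjective P
      rw [hψe, haev, hy.zero_iff, ← hFψ, ← hψe, ← hψe, map_dvd_iff]
    · exact adjoin_base (φ : AlgebraicClosure k ≃+* Qb) hφ hy.generates
  obtain ⟨n, u, hu⟩ : ∃ (n : ℕ) (u : Fin n → K), IsTranscendenceBasis (AlgebraicClosure k) u := by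
    have halg : Algebra.IsAlgebraic (Algebra.adjoin (AlgebraicClosure k) (Set.range y)) K := by
      rw [← IntermediateField.isAlgebraic_adjoin_iff_top, hgp.generates]
      exact ⟨fun a => isAlgebraic_algebraMap (⟨a, trivial⟩ :
        (⊤ : IntermediateField (AlgebraicClosure k) K))⟩
    obtain ⟨s, hs, hs'⟩ := exists_isTranscendenceBasis_subset (R := AlgebraicClosure k) (Set.range y)
    have hfin : s.Finite := (Set.finite_range y).subset hs
    have : Finite s := hfin
    let e := Finite.equivFin s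
    exact ⟨Nat.card s, fun i => (e.symm i : K), hs'.comp_equiv e.symm⟩
  have hlie := Pool.Agent.Y742.CN.sMain _ K (Fin m) n u hu
    (fun i => tr (φ : AlgebraicClosure k ≃+* Qb) hφ (L i))
    (fun i => Pool.Agent.Y742.CN.curve_double (dcl_tr _ hφ (hL i))) (by
      intro a ha
      have h1 := hinv a fun i => isAlgebraic_tr _ hφ (ha i)
      obtain ⟨c, hc⟩ := minpoly.mem_range_of_degree_eq_one Qb a
        (IsAlgClosed.degree_eq_one_of_irreducible Qb (minpoly.irreducible h1.isIntegral))
      refine ⟨φ.symm c, ?_⟩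
      rw [← hφ]
      change algebraMap Qb K (φ (φ.symm c)) = a
      rw [AlgEquiv.apply_symm_apply]
      exact hc)
  obtain ⟨L₁, hL₁, hpts⟩ := ptsO k hFG F₁ hirr hgp
    (fun i => tr (φ : AlgebraicClosure k ≃+* Qb) hφ (L i)) (fun i => dcl_tr _ hφ (hL i)) hlie
  refine ⟨(L₁.map (φ : AlgebraicClosure k →ₐ[k] Qb)).restrictScalars ℚ, ?_, ?_⟩
  · have h1 : FiniteDimensional k (L₁.map (φ : AlgebraicClosure k →ₐ[k] Qb)) :=
      (IntermediateField.equivMap L₁ (φ : AlgebraicClosure k →ₐ[k] Qb)).toLinearEquiv.finiteDimensional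
    exact Module.Finite.trans (R := ℚ) k (L₁.map (φ : AlgebraicClosure k →ₐ[k] Qb))
  · intro G hG
    obtain ⟨p, hp, hpF, hpG⟩ := hpts (map ψ G) (by rwa [haev])
    have hev : ∀ P : MvPolynomial (Fin N) Qb,
        φ (aeval p (map ψ P)) = aeval (fun l => φ (p l)) P := by
      intro P
      have h1 : ((φ : AlgebraicClosure k →+* Qb).comp
          (aeval p : MvPolynomial (Fin N) (AlgebraicClosure k) →ₐ[_] _).toRingHom).comp (map ψ) =
          (aeval (fun l => φ (p l)) : MvPolynomial (Fin N) Qb →ₐ[Qb] Qb).toRingHom := by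
        apply MvPolynomial.ringHom_ext
        · intro r
          change φ (aeval p (map ψ (C r))) = aeval (fun l => φ (p l)) (C r)
          rw [map_C, aeval_C, aeval_C]
          change φ (φ.symm r) = r
          rw [AlgEquiv.apply_symm_apply]
        · intro i
          change φ (aeval p (map ψ (X i))) = aeval (fun l => φ (p l)) (X i)
          rw [map_X, aeval_X, aeval_X]
      exact DFunLike.congr_fun h1 P
    refine ⟨fun l => φ (p l), fun l => ?_, ?_, ?_⟩
    · exact ⟨p l, hp l, rfl⟩
    · rw [← hev, hFψ, hpF, map_zero]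
    · rw [← hev]
      exact fun h => hpG ((map_eq_zero φ).1 h)

/-- clearing denominators -/
lemma clear {Ω : Type} [Field Ω] {N M : ℕ} (R S : Fin M → MvPolynomial (Fin N) Ω)
    (P : MvPolynomial (Fin M) Ω) :
    ∃ (P' : MvPolynomial (Fin N) Ω) (n : ℕ), ∀ (A : Type) [Field A] [Algebra Ω A] (a : Fin N → A),
      (∀ j, aeval a (S j) ≠ 0) →
        aeval a P' = (∏ j, aeval a (S j)) ^ n * aeval (fun j => aeval a (R j) / aeval a (S j)) P := by
  classical
  induction P using MvPolynomial.induction_on with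
  | C r =>
    refine ⟨C r, 0, fun A _ _ a _ => ?_⟩
    rw [aeval_C, aeval_C, pow_zero, one_mul]
  | add P₁ P₂ h₁ h₂ =>
    obtain ⟨Q₁, n₁, h₁⟩ := h₁
    obtain ⟨Q₂, n₂, h₂⟩ := h₂
    refine ⟨(∏ j, S j) ^ n₂ * Q₁ + (∏ j, S j) ^ n₁ * Q₂, n₁ + n₂, fun A _ _ a ha => ?_⟩
    rw [map_add, map_mul, map_mul, map_pow, map_pow, map_prod, h₁ A a ha, h₂ A a ha, map_add]
    ring
  | mul_X P i h =>
    obtain ⟨Q, n, h⟩ := h
    refine ⟨Q * (R i * ∏ j ∈ Finset.univ.erase i, S j), n + 1, fun A _ _ a ha => ?_⟩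
    rw [map_mul, map_mul, map_prod, h A a ha, map_mul, aeval_X, pow_succ,
      ← Finset.mul_prod_erase Finset.univ (fun j => aeval a (S j)) (Finset.mem_univ i)]
    field_simp [ha i]

/-- **Potential density from fibrations in double covers of lines.** -/
theorem dens {K : Type} [Field K] [Algebra Qb K] {m M : ℕ}
    (hfg : ∃ S : Finset K, IntermediateField.adjoin Qb (S : Set K) = ⊤)
    (L : Fin m → IntermediateField Qb K) (hL : ∀ i, IsDoubleCoverOfLine (L i))
    (hinv : ∀ a : K, (∀ i, IsAlgebraic (L i) a) → IsAlgebraic Qb a) (z : Fin M → K) :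
    ∃ L' : IntermediateField ℚ Qb, FiniteDimensional ℚ L' ∧
      ∀ H : MvPolynomial (Fin M) Qb, aeval z H ≠ 0 →
        ∃ q : Fin M → Qb, (∀ j, q j ∈ L') ∧
          (∀ P : MvPolynomial (Fin M) Qb, aeval z P = 0 → aeval q P = 0) ∧ aeval q H ≠ 0 := by
  classical
  obtain ⟨N, F, y, hF, hyF, hyg⟩ := Pool.Agent.Y849.HC.sHyp Qb K hfg
  have hy : IsGenericPoint F y := ⟨hyF, hyg⟩
  obtain ⟨L₁, hL₁, hpts⟩ := dens_model hF hy L hL hinv
  have hz : ∀ j, ∃ R S : MvPolynomial (Fin N) Qb, aeval y S ≠ 0 ∧ z j = aeval y R / aeval y S := by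
    intro j
    have h1 : z j ∈ IntermediateField.adjoin Qb (Set.range y) := by
      rw [hyg]
      trivial
    obtain ⟨R, S, h2⟩ := (IntermediateField.mem_adjoin_range_iff Qb y (z j)).1 h1
    by_cases hS : aeval y S = 0
    · refine ⟨0, 1, ?_, ?_⟩
      · rw [map_one]
        exact one_ne_zero
      · rw [h2, hS, div_zero, map_zero, zero_div]
    · exact ⟨R, S, hS, h2⟩
  choose R S hS hz using hz
  -- enlarge the number field
  set A : Set Qb := (⋃ j, ((R j).coeffs : Set Qb)) ∪ ⋃ j, ((S j).coeffs : Set Qb) with hA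
  have hAfin : A.Finite := (Set.finite_iUnion fun j => Finset.finite_toSet _).union
    (Set.finite_iUnion fun j => Finset.finite_toSet _)
  have hL₂ : FiniteDimensional ℚ (IntermediateField.adjoin ℚ A) := finite_adjoin A hAfin
  set L₂ : IntermediateField ℚ Qb := L₁ ⊔ IntermediateField.adjoin ℚ A with hL₂def
  have hmem : ∀ (P : MvPolynomial (Fin N) Qb) (p : Fin N → Qb), (↑P.coeffs : Set Qb) ⊆ A →
      (∀ l, p l ∈ L₁) → aeval p P ∈ L₂ := by
    intro P p hP hp
    rw [aeval_def, eval₂_eq]
    refine sum_mem fun d hd => mul_mem ?_ (prod_mem fun i _ => pow_mem ?_ _)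
    · have h1 : coeff d P ∈ A := hP (by
        rw [Finset.mem_coe, mem_coeffs_iff]
        exact ⟨d, hd, rfl⟩)
      exact (le_sup_right : _ ≤ L₂) (IntermediateField.subset_adjoin ℚ A h1)
    · exact (le_sup_left : _ ≤ L₂) (hp i)
  refine ⟨L₂, inferInstance, fun H hH => ?_⟩
  obtain ⟨H', n, hH'⟩ := clear R S H
  have hzf : (fun j => aeval y (R j) / aeval y (S j)) = z := by
    funext j
    exact (hz j).symm
  have hG : aeval y (H' * ∏ j, S j) ≠ 0 := by
    rw [map_mul, map_prod, hH' K y hS, hzf]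
    refine mul_ne_zero (mul_ne_zero (pow_ne_zero _ ?_) hH) ?_ <;>
      exact Finset.prod_ne_zero_iff.2 fun j _ => hS j
  obtain ⟨p, hp, hpF, hpG⟩ := hpts _ hG
  rw [map_mul, map_prod] at hpG
  have hpS : ∀ j, aeval p (S j) ≠ 0 := fun j =>
    Finset.prod_ne_zero_iff.1 (right_ne_zero_of_mul hpG) j (Finset.mem_univ j)
  have hprod : (∏ j, aeval p (S j)) ≠ 0 := right_ne_zero_of_mul hpG
  refine ⟨fun j => aeval p (R j) / aeval p (S j), fun j => ?_, fun P hP => ?_, ?_⟩
  · refine div_mem (hmem _ _ ?_ hp) (hmem _ _ ?_ hp)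
    · exact fun a ha => Or.inl (Set.mem_iUnion.2 ⟨j, ha⟩)
    · exact fun a ha => Or.inr (Set.mem_iUnion.2 ⟨j, ha⟩)
  · obtain ⟨P', n', hP'⟩ := clear R S P
    have h1 : aeval y P' = 0 := by
      rw [hP' K y hS, hzf, hP, mul_zero]
    have h2 : aeval p P' = 0 := by
      obtain ⟨Q, hQ⟩ := (hyF P').1 h1
      rw [hQ, map_mul, hpF, zero_mul]
    rw [hP' Qb p hpS] at h2
    exact (mul_eq_zero.1 h2).resolve_left (pow_ne_zero _ hprod)
  · intro h0
    refine left_ne_zero_of_mul hpG ?_
    rw [hH' Qb p hpS, h0, mul_zero]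

end Pool.Agent.V7H80.GC
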