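import Mathlib

/-!
# Vectors of minimal support in the kernel of a matrix
-/

set_option autoImplicit false
set_option linter.unusedSectionVars false

namespace Pool.Agent.V7H80.GC

section circuits

variable {ι κ K : Type*} [Field K] [Fintype ι] [Fintype κ] [DecidableEq ι] [DecidableEq κ]

/-- the support of a vector -/
noncomputable def supp (v : ι → K) : Finset ι := by
  classical
  exact Finset.univ.filter fun a => v a ≠ 0

omit [DecidableEq ι] in
lemma mem_supp {v : ι → K} {a : ι} : a ∈ supp v ↔ v a ≠ 0 := by
  classical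
  unfold supp
  rw [Finset.mem_filter]
  exact ⟨fun h => h.2, fun h => ⟨Finset.mem_univ _, h⟩⟩

/-- vectors of minimal support -/
def IsCircuit (W : Submodule K (ι → K)) (v : ι → K) : Prop :=
  v ∈ W ∧ v ≠ 0 ∧ ∀ w ∈ W, supp w ⊆ supp v → w ≠ 0 → supp w = supp v

lemma supp_sub {v w : ι → K} {a : ι} (ha : v a ≠ 0) (hvw : supp v ⊆ supp w) :
    supp (w - (w a / v a) • v) ⊆ (supp w).erase a := by
  intro b hb
  rw [mem_supp] at hb
  rw [Finset.mem_erase]
  refine ⟨fun hba => hb ?_, ?_⟩
  · rw [hba, Pi.sub_apply, Pi.smul_apply, smul_eq_mul, div_mul_cancel₀ _ ha, sub_self]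
  · by_contra hbw
    have h1 : v b = 0 := by
      by_contra h
      exact hbw (hvw (mem_supp.2 h))
    have h2 : w b = 0 := by
      by_contra h
      exact hbw (mem_supp.2 h)
    apply hb
    rw [Pi.sub_apply, Pi.smul_apply, h1, h2, smul_zero, sub_zero]

lemma exists_circuit (W : Submodule K (ι → K)) : ∀ (n : ℕ) (w : ι → K), w ∈ W → w ≠ 0 →
    (supp w).card ≤ n → ∃ v, IsCircuit W v ∧ supp v ⊆ supp w := by
  intro n
  induction n with
  | zero =>
    intro w _ hw0 hn
    exfalso
    apply hw0
    have h1 : supp w = ∅ := Finset.card_eq_zero.1 (Nat.le_zero.1 hn)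
    funext a
    by_contra h
    have h2 : a ∈ supp w := mem_supp.2 h
    rw [h1] at h2
    exact absurd h2 (Finset.notMem_empty a)
  | succ n ih =>
    intro w hw hw0 hn
    by_cases hc : IsCircuit W w
    · exact ⟨w, hc, subset_rfl⟩
    · have h1 : ∃ w' ∈ W, supp w' ⊆ supp w ∧ w' ≠ 0 ∧ supp w' ≠ supp w := by
        by_contra hcon
        push Not at hcon
        exact hc ⟨hw, hw0, fun w' h1 h2 h3 => hcon w' h1 h2 h3⟩
      obtain ⟨w', hw', hsub, hw'0, hne⟩ := h1
      have h2 : (supp w').card < (supp w).card :=
        Finset.card_lt_card (Finset.ssubset_iff_subset_ne.2 ⟨hsub, hne⟩)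
      obtain ⟨v, hv, hvw⟩ := ih w' hw' hw'0 (by omega)
      exact ⟨v, hv, hvw.trans hsub⟩

/-- the vectors of minimal support span -/
theorem mem_span_circuits (W : Submodule K (ι → K)) : ∀ (n : ℕ) (w : ι → K), w ∈ W →
    (supp w).card ≤ n → w ∈ Submodule.span K {v | IsCircuit W v} := by
  intro n
  induction n with
  | zero =>
    intro w _ hn
    have h1 : supp w = ∅ := Finset.card_eq_zero.1 (Nat.le_zero.1 hn)
    have h2 : w = 0 := by
      funext a
      by_contra h
      have h2 : a ∈ supp w := mem_supp.2 h
      rw [h1] at h2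
      exact absurd h2 (Finset.notMem_empty a)
    rw [h2]
    exact zero_mem _
  | succ n ih =>
    intro w hw hn
    by_cases hw0 : w = 0
    · rw [hw0]
      exact zero_mem _
    · obtain ⟨v, hv, hvw⟩ := exists_circuit W _ w hw hw0 le_rfl
      obtain ⟨a, ha⟩ := Function.ne_iff.1 hv.2.1
      have ha' : v a ≠ 0 := ha
      have h1 := supp_sub ha' hvw
      have h2 : w - (w a / v a) • v ∈ Submodule.span K {v | IsCircuit W v} := by
        apply ih _ (sub_mem hw (W.smul_mem _ hv.1))
        have h3 := Finset.card_le_card h1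
        rw [Finset.card_erase_of_mem (hvw (mem_supp.2 ha'))] at h3
        omega
      have h3 : w = (w - (w a / v a) • v) + (w a / v a) • v := by
        rw [sub_add_cancel]
      rw [h3]
      exact add_mem h2 (Submodule.smul_mem _ _ (Submodule.subset_span hv))

/-- the vectors with support in the support of a circuit -/
lemma IsCircuit.eq_smul {W : Submodule K (ι → K)} {v : ι → K} (hv : IsCircuit W v) {w : ι → K}
    (hw : w ∈ W) (hsub : supp w ⊆ supp v) : ∃ c : K, w = c • v := by
  obtain ⟨a, ha⟩ := Function.ne_iff.1 hv.2.1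
  have ha' : v a ≠ 0 := ha
  refine ⟨w a / v a, ?_⟩
  by_contra hne
  have h1 : w - (w a / v a) • v ≠ 0 := sub_ne_zero.2 hne
  have h2 : supp (w - (w a / v a) • v) ⊆ (supp v).erase a := by
    intro b hb
    rw [mem_supp] at hb
    rw [Finset.mem_erase]
    refine ⟨fun hba => hb ?_, ?_⟩
    · rw [hba, Pi.sub_apply, Pi.smul_apply, smul_eq_mul, div_mul_cancel₀ _ ha', sub_self]
    · by_contra hbv
      have h1 : v b = 0 := by
        by_contra h
        exact hbv (mem_supp.2 h)
      have h2 : w b = 0 := by
        by_contra h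
        exact hbv (hsub (mem_supp.2 h))
      apply hb
      rw [Pi.sub_apply, Pi.smul_apply, h1, h2, smul_zero, sub_zero]
  have h3 := hv.2.2 _ (sub_mem hw (W.smul_mem _ hv.1)) (h2.trans (Finset.erase_subset _ _)) h1
  rw [h3] at h2
  exact Finset.notMem_erase a _ (h2 (mem_supp.2 ha'))

/-- the kernel of a matrix -/
def kerOf (J : κ → ι → K) : Submodule K (ι → K) where
  carrier := {w | ∀ l, ∑ a, J l a * w a = 0}
  zero_mem' := by intro l; simp
  add_mem' := by
    intro w w' h h' l
    have h1 := h l
    have h2 := h' l
    simp only [Pi.add_apply, mul_add, Finset.sum_add_distrib]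
    rw [h1, h2, add_zero]
  smul_mem' := by
    intro c w h l
    have h1 := h l
    simp only [Pi.smul_apply, smul_eq_mul]
    have : ∑ a, J l a * (c * w a) = c * ∑ a, J l a * w a := by
      rw [Finset.mul_sum]
      exact Finset.sum_congr rfl fun a _ => by ring
    rw [this, h1, mul_zero]

/-- independent rows for a circuit -/
theorem circuit_rows (J : κ → ι → K) {v : ι → K} (hv : IsCircuit (kerOf J) v) :
    ∃ T : Finset κ, (∀ c : κ → K, (∀ a ∈ supp v, ∑ l ∈ T, c l * J l a = 0) → ∀ l ∈ T, c l = 0) ∧
      (supp v).card = T.card + 1 := by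
  classical
  let ρ : κ → (supp v → K) := fun l a => J l a
  obtain ⟨s, hs, hmax⟩ := exists_maximal_linearIndepOn K ρ
  have hspan : ∀ l, ρ l ∈ Submodule.span K (ρ '' s) := by
    intro l
    by_cases hl : l ∈ s
    · exact Submodule.subset_span ⟨l, hl, rfl⟩
    · obtain ⟨a, ha, h⟩ := hmax l hl
      exact (Submodule.smul_mem_iff _ ha).1 h
  let T : Finset κ := s.toFinset
  have hTs : ∀ l, l ∈ T ↔ l ∈ s := fun l => Set.mem_toFinset
  refine ⟨T, ?_, ?_⟩
  · intro c hc l hl
    have h1 : LinearIndependent K (fun l : s => ρ l) := hs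
    rw [Fintype.linearIndependent_iff] at h1
    have h2 := h1 (fun l => c l) ?_ ⟨l, (hTs l).1 hl⟩
    · exact h2
    · funext a
      rw [Finset.sum_apply, Pi.zero_apply]
      have h3 := hc a a.2
      rw [← h3]
      have h4 : ∑ l ∈ T, c l * J l a = ∑ l : s, c l * J l a := by
        rw [← Finset.sum_coe_sort]
        refine Fintype.sum_equiv (Equiv.subtypeEquivRight hTs) _ _ fun l => rfl
      rw [h4]
      refine Finset.sum_congr rfl fun l _ => ?_
      rw [Pi.smul_apply, smul_eq_mul]
  · let M : Matrix s (supp v) K := fun l a => J l a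
    have hrank : M.rank = Fintype.card s := LinearIndependent.rank_matrix (M := M) hs
    have hker : Module.finrank K (LinearMap.ker M.mulVecLin) = 1 := by
      let v' : supp v → K := fun a => v a
      have hv'0 : v' ≠ 0 := by
        obtain ⟨a, ha⟩ := Function.ne_iff.1 hv.2.1
        intro h
        exact ha (congrFun h ⟨a, mem_supp.2 ha⟩)
      have hkey : ∀ w : supp v → K, w ∈ LinearMap.ker M.mulVecLin →
          (fun a => if h : a ∈ supp v then w ⟨a, h⟩ else 0) ∈ kerOf J := by
        intro w hw l
        have h1 : ∀ l : s, ∑ a : supp v, J l a * w a = 0 := by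
          intro l
          have h2 : M.mulVecLin w = 0 := hw
          have h3 := congrFun h2 l
          rw [Matrix.mulVecLin_apply] at h3
          exact h3
        have h2 : ∀ r ∈ Submodule.span K (ρ '' s), ∑ a : supp v, r a * w a = 0 := by
          intro r hr
          induction hr using Submodule.span_induction with
          | mem r hr =>
            obtain ⟨l, hl, rfl⟩ := hr
            exact h1 ⟨l, hl⟩
          | zero => simp
          | add r r' _ _ hr hr' =>
            simp only [Pi.add_apply, add_mul, Finset.sum_add_distrib]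
            rw [hr, hr', add_zero]
          | smul c r _ hr =>
            simp only [Pi.smul_apply, smul_eq_mul, mul_assoc]
            rw [← Finset.mul_sum, hr, mul_zero]
        have h3 := h2 _ (hspan l)
        refine Eq.trans ?_ h3
        have h4 : ∑ a : supp v, ρ l a * w a = ∑ a ∈ supp v,
            J l a * (if h : a ∈ supp v then w ⟨a, h⟩ else 0) := by
          rw [← Finset.sum_coe_sort (supp v)]
          refine Finset.sum_congr rfl fun a _ => ?_
          rw [dif_pos a.2]
        rw [h4]
        symm
        apply Finset.sum_subset (Finset.subset_univ _)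
        intro a _ ha
        rw [dif_neg ha, mul_zero]
      have hv'mem : v' ∈ LinearMap.ker M.mulVecLin := by
        rw [LinearMap.mem_ker]
        funext l
        rw [Matrix.mulVecLin_apply]
        change ∑ a : supp v, J l a * v a = 0
        rw [Finset.sum_coe_sort (supp v) (fun a => J l a * v a)]
        have h1 := hv.1 l
        rw [← h1]
        apply Finset.sum_subset (Finset.subset_univ _)
        intro a _ ha
        have : v a = 0 := by
          by_contra h
          exact ha (mem_supp.2 h)
        rw [this, mul_zero]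
      rw [finrank_eq_one_iff']
      refine ⟨⟨v', hv'mem⟩, fun h => hv'0 (congrArg Subtype.val h), fun w => ?_⟩
      obtain ⟨c, hc⟩ := hv.eq_smul (hkey w.1 w.2) (fun a ha => by
        rw [mem_supp] at ha
        by_contra h
        rw [dif_neg h] at ha
        exact ha rfl)
      refine ⟨c, Subtype.ext (funext fun a => ?_)⟩
      have h1 := congrFun hc a
      rw [dif_pos a.2] at h1
      exact h1.symm
    have h1 := LinearMap.finrank_range_add_finrank_ker M.mulVecLin
    rw [hker, Module.finrank_fintype_fun_eq_card] at h1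
    have h2 : Module.finrank K (LinearMap.range M.mulVecLin) = M.rank := rfl
    rw [h2, hrank, Fintype.card_coe] at h1
    rw [← h1]
    congr 1
    rw [Set.toFinset_card]

end circuits

end Pool.Agent.V7H80.GC
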