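import Mathlib

/-!
# Elimination in systems of low degree

A system of `v` equations in `v + 1` unknowns over a field `L`, with a transversal solution `u` in a
field `K`, in which every unknown has total degree at most two, defines a curve of bidegree `(2, 2)`.
-/

set_option autoImplicit false
set_option linter.unusedSectionVars false

namespace Pool.Agent.V7H80.GC

open MvPolynomial

section split

variable {ι R : Type*} [CommRing R] [DecidableEq ι]

/-- the sum of the monomials without the variable `e` -/
noncomputable def low (e : ι) (g : MvPolynomial ι R) : MvPolynomial ι R :=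
  ∑ m ∈ g.support with m e = 0, monomial m (coeff m g)

lemma support_low (e : ι) (g : MvPolynomial ι R) {m : ι →₀ ℕ} (hm : m ∈ (low e g).support) :
    m ∈ g.support ∧ m e = 0 := by
  classical
  have h : coeff m (low e g) ≠ 0 := mem_support_iff.1 hm
  unfold low at h
  rw [coeff_sum] at h
  obtain ⟨m', hm', h'⟩ := Finset.exists_ne_zero_of_sum_ne_zero h
  rw [coeff_monomial] at h'
  have : m' = m := by
    by_contra h2
    rw [if_neg h2] at h'
    exact h' rfl
  subst this
  exact Finset.mem_filter.1 hm'

lemma degreeOf_low_le (e a : ι) (g : MvPolynomial ι R) : degreeOf a (low e g) ≤ degreeOf a g := by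
  rw [degreeOf_le_iff]
  intro m hm
  exact degreeOf_le_iff.1 le_rfl m (support_low e g hm).1

lemma degreeOf_low_self (e : ι) (g : MvPolynomial ι R) : degreeOf e (low e g) = 0 := by
  rw [← Nat.le_zero, degreeOf_le_iff]
  intro m hm
  exact (support_low e g hm).2.le

lemma support_pderiv (e : ι) (g : MvPolynomial ι R) {m : ι →₀ ℕ}
    (hm : m ∈ (pderiv e g).support) : m + Finsupp.single e 1 ∈ g.support := by
  rw [mem_support_iff] at hm ⊢
  intro h
  rw [coeff_pderiv, h] at hm
  simp at hm

lemma degreeOf_pderiv_le (e a : ι) (g : MvPolynomial ι R) :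
    degreeOf a (pderiv e g) ≤ degreeOf a g := by
  rw [degreeOf_le_iff]
  intro m hm
  have h := degreeOf_le_iff.1 (le_refl (degreeOf a g)) _ (support_pderiv e g hm)
  rw [Finsupp.add_apply] at h
  omega

lemma degreeOf_pderiv_self (e : ι) (g : MvPolynomial ι R) (h : degreeOf e g ≤ 1) :
    degreeOf e (pderiv e g) = 0 := by
  rw [← Nat.le_zero, degreeOf_le_iff]
  intro m hm
  have h := degreeOf_le_iff.1 h _ (support_pderiv e g hm)
  rw [Finsupp.add_apply, Finsupp.single_eq_same] at h
  omega

lemma pderiv_eq_zero {e : ι} {g : MvPolynomial ι R} (h : degreeOf e g = 0) : pderiv e g = 0 := by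
  ext m
  rw [coeff_zero]
  by_contra hm
  have h1 := degreeOf_le_iff.1 h.le _ (support_pderiv e g (mem_support_iff.2 hm))
  rw [Finsupp.add_apply, Finsupp.single_eq_same] at h1
  omega

/-- a polynomial of degree at most one in a variable -/
lemma split (e : ι) (g : MvPolynomial ι R) (h : degreeOf e g ≤ 1) :
    low e g + X e * pderiv e g = g := by
  classical
  have h1 : X e * pderiv e g = ∑ m ∈ g.support, m e • monomial m (coeff m g) := by
    conv_lhs => rw [g.as_sum, map_sum, Finset.mul_sum]
    exact Finset.sum_congr rfl fun m _ => X_mul_pderiv_monomial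
  rw [h1, low, Finset.sum_filter, ← Finset.sum_add_distrib]
  conv_rhs => rw [g.as_sum]
  refine Finset.sum_congr rfl fun m hm => ?_
  have h2 := degreeOf_le_iff.1 h m hm
  by_cases h3 : m e = 0
  · rw [if_pos h3, h3, zero_smul, add_zero]
  · rw [if_neg h3, show m e = 1 by omega, one_smul, zero_add]

lemma degreeOf_sub_le' (a : ι) (p q : MvPolynomial ι R) :
    degreeOf a (p - q) ≤ max (degreeOf a p) (degreeOf a q) := by
  rw [sub_eq_add_neg]
  refine (degreeOf_add_le a p (-q)).trans ?_
  have : degreeOf a (-q) ≤ degreeOf a q := by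
    rw [degreeOf_le_iff]
    intro m hm
    rw [support_neg] at hm
    exact degreeOf_le_iff.1 le_rfl m hm
  exact max_le_max le_rfl this

end split

section fields

variable {ι κ L K : Type*} [Field L] [Field K] [Algebra L K] [DecidableEq ι] [DecidableEq κ]

/-- the values of polynomials in some of the unknowns -/
lemma aeval_mem_adjoin (u : ι → K) (S : Set ι) (P : MvPolynomial ι L)
    (hP : ∀ a, a ∉ S → degreeOf a P = 0) : aeval u P ∈ IntermediateField.adjoin L (u '' S) := by
  rw [aeval_def, eval₂_eq]
  refine sum_mem fun m hm => mul_mem (IntermediateField.algebraMap_mem _ _)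
    (prod_mem fun a ha => ?_)
  refine pow_mem (IntermediateField.subset_adjoin L (u '' S) (Set.mem_image_of_mem u ?_)) _
  by_contra haS
  have h1 := degreeOf_le_iff.1 (hP a haS).le m hm
  exact (Finsupp.mem_support_iff.1 ha) (Nat.le_zero.1 h1)

/-- A system of `v` equations `g l`, `l ∈ T`, in the `v + 1` unknowns `u a`, `a ∈ S`, which is
transversal at `u`, with a tangent vector `δ` without zero coordinates, and a double cover
`w ^ 2 = P(u)`, such that twice the sum of the degrees of the equations plus the degree of `P` in every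
unknown is at most four. -/
structure Sys (S : Finset ι) (T : Finset κ) (u δ : ι → K) (g : κ → MvPolynomial ι L)
    (P : MvPolynomial ι L) (w : K) : Prop where
  card : S.card = T.card + 1
  outside : ∀ l ∈ T, ∀ a, a ∉ S → degreeOf a (g l) = 0
  zero : ∀ l ∈ T, aeval u (g l) = 0
  indep : ∀ c : κ → K, (∀ a, ∑ l ∈ T, c l * aeval u (pderiv a (g l)) = 0) → ∀ l ∈ T, c l = 0
  ker : ∀ l ∈ T, ∑ a ∈ S, aeval u (pderiv a (g l)) * δ a = 0
  full : ∀ a ∈ S, δ a ≠ 0
  outP : ∀ a, a ∉ S → degreeOf a P = 0
  cov : w ^ 2 = aeval u P
  deg : ∀ a ∈ S, 2 * ∑ l ∈ T, degreeOf a (g l) + degreeOf a P ≤ 4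

variable {S : Finset ι} {T : Finset κ} {u δ : ι → K} {g : κ → MvPolynomial ι L}
  {P : MvPolynomial ι L} {w : K}

/-- elimination of one unknown -/
noncomputable def elim (e : ι) (l : κ) (g : κ → MvPolynomial ι L) (l' : κ) : MvPolynomial ι L :=
  if degreeOf e (g l') = 0 then g l'
  else low e (g l) * pderiv e (g l') - low e (g l') * pderiv e (g l)

/-- substitution of `- A / B` for the unknown `e`, multiplied by `B ^ 2` -/
noncomputable def elimP (e : ι) (A B P : MvPolynomial ι L) : MvPolynomial ι L :=
  ∑ m ∈ P.support, monomial (m.erase e) (coeff m P) * ((-A) ^ (m e) * B ^ (2 - m e))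

lemma degreeOf_neg' (a : ι) (p : MvPolynomial ι L) : degreeOf a (-p) ≤ degreeOf a p := by
  rw [degreeOf_le_iff]
  intro m hm
  rw [support_neg] at hm
  exact degreeOf_le_iff.1 le_rfl m hm

lemma degreeOf_elimP_le {e : ι} {A B P : MvPolynomial ι L} (hP : degreeOf e P ≤ 2) (a : ι) (d : ℕ)
    (hA : degreeOf a A ≤ d) (hB : degreeOf a B ≤ d) :
    degreeOf a (elimP e A B P) ≤ (if a = e then 0 else degreeOf a P) + 2 * d := by
  unfold elimP
  refine (degreeOf_sum_le _ _ _).trans (Finset.sup_le fun m hm => ?_)
  have h1 : degreeOf a (monomial (m.erase e) (coeff m P)) ≤ if a = e then 0 else degreeOf a P := by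
    rw [degreeOf_le_iff]
    intro m' hm'
    have h2 : m' = m.erase e := Finset.mem_singleton.1 (support_monomial_subset hm')
    rw [h2, Finsupp.erase_apply]
    split_ifs with h3
    · exact le_rfl
    · exact degreeOf_le_iff.1 le_rfl m hm
  have h2 : degreeOf a ((-A) ^ (m e)) ≤ m e * d :=
    (degreeOf_pow_le _ _ _).trans (Nat.mul_le_mul_left _ ((degreeOf_neg' a A).trans hA))
  have h3 : degreeOf a (B ^ (2 - m e)) ≤ (2 - m e) * d :=
    (degreeOf_pow_le _ _ _).trans (Nat.mul_le_mul_left _ hB)
  have h4 : m e ≤ 2 := degreeOf_le_iff.1 hP m hm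
  have h5 : m e * d + (2 - m e) * d = 2 * d := by
    rw [← add_mul]
    congr 1
    omega
  calc _ ≤ degreeOf a (monomial (m.erase e) (coeff m P)) +
        degreeOf a ((-A) ^ (m e) * B ^ (2 - m e)) := degreeOf_mul_le _ _ _
    _ ≤ (if a = e then 0 else degreeOf a P) + (m e * d + (2 - m e) * d) :=
        Nat.add_le_add h1 ((degreeOf_mul_le _ _ _).trans (Nat.add_le_add h2 h3))
    _ = _ := by rw [h5]

lemma aeval_elimP {e : ι} {A B P : MvPolynomial ι L} (hP : degreeOf e P ≤ 2)
    (hA : aeval u A = - (u e * aeval u B)) :
    aeval u (elimP e A B P) = aeval u B ^ 2 * aeval u P := by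
  unfold elimP
  conv_rhs => rw [P.as_sum, map_sum, Finset.mul_sum]
  rw [map_sum]
  refine Finset.sum_congr rfl fun m hm => ?_
  have h4 : m e ≤ 2 := degreeOf_le_iff.1 hP m hm
  have h5 : aeval u (monomial m (coeff m P)) =
      aeval u (monomial (m.erase e) (coeff m P)) * u e ^ (m e) := by
    have h6 : (monomial m (coeff m P) : MvPolynomial ι L) =
        monomial (m.erase e) (coeff m P) * X e ^ (m e) := by
      rw [X_pow_eq_monomial, monomial_mul, mul_one, Finsupp.erase_add_single]
    conv_lhs => rw [h6]
    rw [map_mul, map_pow, aeval_X]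
  rw [h5, map_mul, map_mul, map_pow, map_pow, map_neg, hA, neg_neg, mul_pow]
  have h6 : aeval u B ^ (m e) * aeval u B ^ (2 - m e) = aeval u B ^ 2 := by
    rw [← pow_add]
    congr 1
    omega
  linear_combination (aeval u (monomial (m.erase e) (coeff m P)) * u e ^ (m e)) * h6

namespace Sys

lemma elim_step (h : Sys S T u δ g P w) {e : ι} {l : κ} (he : e ∈ S) (hl : l ∈ T)
    (hne : aeval u (pderiv e (g l)) ≠ 0) (hd : degreeOf e (g l) ≤ 1) :
    ∃ (P' : MvPolynomial ι L) (w' : K), Sys (S.erase e) (T.erase l) u δ (elim e l g) P' w' ∧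
      u e ∈ IntermediateField.adjoin L (u '' (S.erase e : Finset ι)) ∧
      ∃ b ∈ IntermediateField.adjoin L (u '' (S.erase e : Finset ι)), b ≠ 0 ∧ w' = w * b := by
  classical
  have hd1 : degreeOf e (g l) = 1 := by
    refine le_antisymm hd (Nat.one_le_iff_ne_zero.2 fun h0 => hne ?_)
    rw [pderiv_eq_zero h0, map_zero]
  -- the other degrees in `e`
  have hsum2 : 2 * ∑ l' ∈ T.erase l, degreeOf e (g l') + degreeOf e P ≤ 2 := by
    have h1 := h.deg e he
    rw [← Finset.add_sum_erase _ _ hl, hd1] at h1
    omega
  have hsum : ∑ l' ∈ T.erase l, degreeOf e (g l') ≤ 1 := by omega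
  have hPe : degreeOf e P ≤ 2 := by omega
  have hle : ∀ l' ∈ T, degreeOf e (g l') ≤ 1 := by
    intro l' hl'
    by_cases h1 : l' = l
    · rw [h1, hd1]
    · exact (Finset.single_le_sum (f := fun l' => degreeOf e (g l')) (fun _ _ => Nat.zero_le _)
        (Finset.mem_erase.2 ⟨h1, hl'⟩)).trans hsum
  have hA : ∀ l' ∈ T, aeval u (low e (g l')) = - (u e * aeval u (pderiv e (g l'))) := by
    intro l' hl'
    have h1 := h.zero l' hl'
    rw [← split e (g l') (hle l' hl'), map_add, map_mul, aeval_X] at h1
    linear_combination h1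
  have hgrad : ∀ l' ∈ T, ∀ a, aeval u (pderiv a (g l')) =
      aeval u (pderiv a (low e (g l'))) +
        aeval u (pderiv a (X e : MvPolynomial ι L)) * aeval u (pderiv e (g l')) +
        u e * aeval u (pderiv a (pderiv e (g l'))) := by
    intro l' hl' a
    conv_lhs => rw [← split e (g l') (hle l' hl')]
    rw [map_add, pderiv_mul, map_add, map_add, map_mul, map_mul, aeval_X]
    ring
  -- the new rows
  obtain ⟨α, β, hα, hrow⟩ : ∃ α β : κ → K, (∀ l' ∈ T.erase l, α l' ≠ 0) ∧
      ∀ l' ∈ T.erase l, ∀ a, aeval u (pderiv a (elim e l g l')) =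
        α l' * aeval u (pderiv a (g l')) + β l' * aeval u (pderiv a (g l)) := by
    refine ⟨fun l' => if degreeOf e (g l') = 0 then 1 else - aeval u (pderiv e (g l)),
      fun l' => if degreeOf e (g l') = 0 then 0 else aeval u (pderiv e (g l')), ?_, ?_⟩
    · intro l' _
      dsimp only
      split_ifs
      · exact one_ne_zero
      · exact neg_ne_zero.2 hne
    · intro l' hl' a
      have hl'T := (Finset.mem_erase.1 hl').2
      dsimp only [elim]
      split_ifs with h0
      · ring
      · rw [hgrad l' hl'T a, hgrad l hl a, map_sub, pderiv_mul, pderiv_mul]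
        simp only [map_sub, map_add, map_mul]
        rw [hA l hl, hA l' hl'T]
        ring
  have hrowe : ∀ l' ∈ T.erase l, aeval u (pderiv e (elim e l g l')) = 0 := by
    intro l' hl'
    rw [pderiv_eq_zero, map_zero]
    dsimp only [elim]
    split_ifs with h0
    · exact h0
    · have h1 : ∀ p q : MvPolynomial ι L, degreeOf e p = 0 → degreeOf e q = 0 →
          degreeOf e (p * q) = 0 := fun p q hp hq => by
        have := degreeOf_mul_le e p q
        omega
      have h2 := degreeOf_sub_le' e (low e (g l) * pderiv e (g l')) (low e (g l') * pderiv e (g l))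
      rw [h1 _ _ (degreeOf_low_self _ _) (degreeOf_pderiv_self _ _
        (hle l' (Finset.mem_erase.1 hl').2)), h1 _ _ (degreeOf_low_self _ _)
        (degreeOf_pderiv_self _ _ hd)] at h2
      exact Nat.le_zero.1 h2
  have hdeg' : ∀ l' ∈ T.erase l, ∀ a, degreeOf a (elim e l g l') ≤ degreeOf a (g l') +
      if degreeOf e (g l') = 0 then 0 else degreeOf a (g l) := by
    intro l' _ a
    dsimp only [elim]
    split_ifs with h0
    · exact le_rfl
    · refine (degreeOf_sub_le' _ _ _).trans (max_le ?_ ?_)
      · refine (degreeOf_mul_le _ _ _).trans ?_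
        have h1 := degreeOf_low_le e a (g l)
        have h2 := degreeOf_pderiv_le e a (g l')
        omega
      · refine (degreeOf_mul_le _ _ _).trans ?_
        have h1 := degreeOf_low_le e a (g l')
        have h2 := degreeOf_pderiv_le e a (g l)
        omega
  have hdegs : ∀ a, ∑ l' ∈ T.erase l, degreeOf a (elim e l g l') ≤
      ∑ l' ∈ T.erase l, degreeOf a (g l') +
        (∑ l' ∈ T.erase l, degreeOf e (g l')) * degreeOf a (g l) := by
    intro a
    calc ∑ l' ∈ T.erase l, degreeOf a (elim e l g l')
        ≤ ∑ l' ∈ T.erase l, (degreeOf a (g l') + degreeOf e (g l') * degreeOf a (g l)) := by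
          refine Finset.sum_le_sum fun l' hl' => (hdeg' l' hl' a).trans ?_
          split_ifs with h0
          · omega
          · have h1 : 1 ≤ degreeOf e (g l') := Nat.one_le_iff_ne_zero.2 h0
            exact Nat.add_le_add_left (Nat.le_mul_of_pos_left _ h1) _
      _ = _ := by
          rw [Finset.sum_add_distrib, Finset.sum_mul]
  have hout : ∀ a, a ∉ ((S.erase e : Finset ι) : Set ι) → degreeOf a (low e (g l)) = 0 ∧
      degreeOf a (pderiv e (g l)) = 0 := by
    intro a ha
    by_cases hae : a = e
    · rw [hae]
      exact ⟨degreeOf_low_self _ _, degreeOf_pderiv_self _ _ hd⟩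
    · have haS : a ∉ S := fun h' => ha (Finset.mem_coe.2 (Finset.mem_erase.2 ⟨hae, h'⟩))
      have h2 := h.outside l hl a haS
      have h3 := degreeOf_low_le e a (g l)
      have h4 := degreeOf_pderiv_le e a (g l)
      omega
  -- the new double cover
  obtain ⟨P', w', hP'out, hcov', hdegP', b, hb, hb0, hw'⟩ : ∃ (P' : MvPolynomial ι L) (w' : K),
      (∀ a, a ∉ S.erase e → degreeOf a P' = 0) ∧ w' ^ 2 = aeval u P' ∧
      (∀ a ∈ S.erase e, 2 * ∑ l' ∈ T.erase l, degreeOf a (elim e l g l') + degreeOf a P' ≤ 4) ∧
      ∃ b ∈ IntermediateField.adjoin L (u '' (S.erase e : Finset ι)), b ≠ 0 ∧ w' = w * b := by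
    by_cases hP0 : degreeOf e P = 0
    · refine ⟨P, w, ?_, h.cov, ?_, 1, one_mem _, one_ne_zero, (mul_one w).symm⟩
      · intro a ha
        by_cases hae : a = e
        · rw [hae]
          exact hP0
        · exact h.outP a fun h' => ha (Finset.mem_erase.2 ⟨hae, h'⟩)
      · intro a ha
        have haS := (Finset.mem_erase.1 ha).2
        have h1 := h.deg a haS
        rw [← Finset.add_sum_erase _ _ hl] at h1
        have h2 := hdegs a
        have h3 : (∑ l' ∈ T.erase l, degreeOf e (g l')) * degreeOf a (g l) ≤ degreeOf a (g l) := by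
          calc _ ≤ 1 * degreeOf a (g l) := Nat.mul_le_mul_right _ hsum
            _ = _ := one_mul _
        omega
    · have hs0 : ∑ l' ∈ T.erase l, degreeOf e (g l') = 0 := by omega
      refine ⟨elimP e (low e (g l)) (pderiv e (g l)) P, w * aeval u (pderiv e (g l)), ?_, ?_, ?_,
        aeval u (pderiv e (g l)), aeval_mem_adjoin u _ _ fun a ha => (hout a ha).2, hne, rfl⟩
      · intro a ha
        have h1 := hout a ha
        have h2 := degreeOf_elimP_le (A := low e (g l)) (B := pderiv e (g l)) hPe a 0 h1.1.le
          h1.2.le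
        have h3 : (if a = e then 0 else degreeOf a P) = 0 := by
          split_ifs with hae
          · rfl
          · exact h.outP a fun h' => ha (Finset.mem_erase.2 ⟨hae, h'⟩)
        rw [h3] at h2
        omega
      · rw [aeval_elimP hPe (hA l hl), mul_pow, h.cov]
        ring
      · intro a ha
        obtain ⟨hae, haS⟩ := Finset.mem_erase.1 ha
        have h1 := h.deg a haS
        rw [← Finset.add_sum_erase _ _ hl] at h1
        have h2 := hdegs a
        rw [hs0, zero_mul] at h2
        have h3 := degreeOf_elimP_le (A := low e (g l)) (B := pderiv e (g l)) hPe a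
          (degreeOf a (g l)) (degreeOf_low_le _ _ _) (degreeOf_pderiv_le _ _ _)
        rw [if_neg hae] at h3
        omega
  refine ⟨P', w', ⟨?_, ?_, ?_, ?_, ?_, ?_, hP'out, hcov', hdegP'⟩, ?_, b, hb, hb0, hw'⟩
  · rw [Finset.card_erase_of_mem he, Finset.card_erase_of_mem hl, h.card]
    have := Finset.card_pos.2 ⟨l, hl⟩
    omega
  · intro l' hl' a ha
    by_cases hae : a = e
    · subst hae
      dsimp only [elim]
      split_ifs with h0
      · exact h0
      · have h1 : ∀ p q : MvPolynomial ι L, degreeOf a p = 0 → degreeOf a q = 0 →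
            degreeOf a (p * q) = 0 := fun p q hp hq => by
          have := degreeOf_mul_le a p q
          omega
        have h2 := degreeOf_sub_le' a (low a (g l) * pderiv a (g l'))
          (low a (g l') * pderiv a (g l))
        rw [h1 _ _ (degreeOf_low_self _ _) (degreeOf_pderiv_self _ _
          (hle l' (Finset.mem_erase.1 hl').2)), h1 _ _ (degreeOf_low_self _ _)
          (degreeOf_pderiv_self _ _ hd)] at h2
        exact Nat.le_zero.1 h2
    · have haS : a ∉ S := fun h' => ha (Finset.mem_erase.2 ⟨hae, h'⟩)
      have h1 := hdeg' l' hl' a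
      rw [h.outside l' (Finset.mem_erase.1 hl').2 a haS, h.outside l hl a haS] at h1
      simpa using h1
  · intro l' hl'
    have hl'T := (Finset.mem_erase.1 hl').2
    dsimp only [elim]
    split_ifs with h0
    · exact h.zero l' hl'T
    · rw [map_sub, map_mul, map_mul, hA l hl, hA l' hl'T]
      ring
  · intro c hc l' hl'
    have h1 := h.indep (fun l' => if l' = l then ∑ l'' ∈ T.erase l, c l'' * β l''
      else c l' * α l') (fun a => ?_) l' (Finset.mem_erase.1 hl').2
    · rw [if_neg (Finset.mem_erase.1 hl').1] at h1
      exact (mul_eq_zero.1 h1).resolve_right (hα l' hl')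
    · rw [← Finset.add_sum_erase _ _ hl, if_pos rfl, Finset.sum_mul, ← Finset.sum_add_distrib,
        ← hc a]
      refine Finset.sum_congr rfl fun l'' hl'' => ?_
      rw [if_neg (Finset.mem_erase.1 hl'').1, hrow l'' hl'' a]
      ring
  · intro l' hl'
    have h1 : ∑ a ∈ S, aeval u (pderiv a (elim e l g l')) * δ a = 0 := by
      have h2 := h.ker l' (Finset.mem_erase.1 hl').2
      have h3 := h.ker l hl
      calc ∑ a ∈ S, aeval u (pderiv a (elim e l g l')) * δ a
          = α l' * ∑ a ∈ S, aeval u (pderiv a (g l')) * δ a +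
            β l' * ∑ a ∈ S, aeval u (pderiv a (g l)) * δ a := by
            rw [Finset.mul_sum, Finset.mul_sum, ← Finset.sum_add_distrib]
            refine Finset.sum_congr rfl fun a _ => ?_
            rw [hrow l' hl' a]
            ring
        _ = 0 := by rw [h2, h3]; ring
    rw [← Finset.add_sum_erase _ _ he, hrowe l' hl', zero_mul, zero_add] at h1
    exact h1
  · intro a ha
    exact h.full a (Finset.mem_erase.1 ha).2
  · -- the eliminated unknown
    have h1 : u e = - aeval u (low e (g l)) / aeval u (pderiv e (g l)) := by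
      rw [hA l hl]
      field_simp
    rw [h1]
    exact div_mem (neg_mem (aeval_mem_adjoin u _ _ fun a ha => (hout a ha).1))
      (aeval_mem_adjoin u _ _ fun a ha => (hout a ha).2)

/-- the equations are not trivial -/
lemma exists_ne (h : Sys S T u δ g P w) {l : κ} (hl : l ∈ T) :
    ∃ a ∈ S, aeval u (pderiv a (g l)) ≠ 0 := by
  classical
  by_contra hcon
  push Not at hcon
  have h1 := h.indep (fun l' => if l' = l then 1 else 0) (fun a => ?_) l hl
  · rw [if_pos rfl] at h1
    exact one_ne_zero h1
  · rw [Finset.sum_eq_single l]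
    · rw [if_pos rfl, one_mul]
      by_cases ha : a ∈ S
      · exact hcon a ha
      · rw [pderiv_eq_zero (h.outside l hl a ha), map_zero]
    · intro l' _ hl'
      rw [if_neg hl', zero_mul]
    · intro h'
      exact absurd hl h'

/-- every equation depends on at least two unknowns -/
lemma two_le (h : Sys S T u δ g P w) {l : κ} (hl : l ∈ T) :
    ∀ a ∈ S, ∃ b ∈ S, b ≠ a ∧ aeval u (pderiv b (g l)) ≠ 0 := by
  classical
  intro a haS
  by_contra hcon
  push Not at hcon
  obtain ⟨b, hbS, hb⟩ := h.exists_ne hl
  have hba : b = a := by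
    by_contra hne
    exact hb (hcon b hbS hne)
  subst hba
  have h2 := h.ker l hl
  rw [Finset.sum_eq_single b] at h2
  · exact (mul_ne_zero hb (h.full b hbS)) h2
  · intro c hc hcb
    rw [hcon c hc hcb, zero_mul]
  · intro h'
    exact absurd hbS h'

/-- an unknown can be eliminated -/
lemma exists_elim (h : Sys S T u δ g P w) (hT : 2 ≤ T.card) :
    ∃ e ∈ S, ∃ l ∈ T, aeval u (pderiv e (g l)) ≠ 0 ∧ degreeOf e (g l) ≤ 1 := by
  classical
  by_contra hcon
  push Not at hcon
  let Q : κ → Finset ι := fun l => S.filter fun a => aeval u (pderiv a (g l)) ≠ 0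
  have hP2 : ∀ l ∈ T, 2 ≤ (Q l).card := by
    intro l hl
    obtain ⟨a, haS, ha⟩ := h.exists_ne hl
    obtain ⟨b, hbS, hba, hb⟩ := h.two_le hl a haS
    by_contra hlt
    have h1 : (Q l).card ≤ 1 := by omega
    exact hba (Finset.card_le_one.1 h1 b (Finset.mem_filter.2 ⟨hbS, hb⟩) a
        (Finset.mem_filter.2 ⟨haS, ha⟩))
  have hdisj : ∀ l ∈ T, ∀ l' ∈ T, l ≠ l' → Disjoint (Q l) (Q l') := by
    intro l hl l' hl' hne
    rw [Finset.disjoint_left]
    intro a ha ha'
    obtain ⟨haS, h1⟩ := Finset.mem_filter.1 ha
    obtain ⟨_, h2⟩ := Finset.mem_filter.1 ha'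
    have h3 := hcon a haS l hl h1
    have h4 := hcon a haS l' hl' h2
    have h5 := h.deg a haS
    have h6 : degreeOf a (g l) + degreeOf a (g l') ≤ ∑ l ∈ T, degreeOf a (g l) := by
      rw [← Finset.add_sum_erase _ _ hl]
      exact Nat.add_le_add_left (Finset.single_le_sum (f := fun l' => degreeOf a (g l'))
        (fun _ _ => Nat.zero_le _) (Finset.mem_erase.2 ⟨hne.symm, hl'⟩)) _
    omega
  have h1 : (T.biUnion Q).card = ∑ l ∈ T, (Q l).card := Finset.card_biUnion hdisj
  have h2 : (T.biUnion Q).card ≤ S.card :=
    Finset.card_le_card (Finset.biUnion_subset.2 fun l _ => Finset.filter_subset _ _)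
  have h3 : T.card * 2 ≤ ∑ l ∈ T, (Q l).card := by
    rw [← smul_eq_mul]
    exact Finset.card_nsmul_le_sum _ _ _ hP2
  have h4 := h.card
  omega

/-- the shapes of the Newton polygons -/
def Shape (G : MvPolynomial (Fin 2) L) : Prop :=
  (∀ m ∈ G.support, m 0 ≤ 2 ∧ m 1 ≤ 2) ∨ (∀ m ∈ G.support, 2 * m 0 + m 1 ≤ 4)

/-- **Elimination.** -/
theorem curve (hcl : ∀ y : K, IsAlgebraic L y → y ∈ Set.range (algebraMap L K)) : ∀ (v : ℕ)
    (S : Finset ι) (T : Finset κ) (g : κ → MvPolynomial ι L) (P : MvPolynomial ι L) (w : K),
    T.card = v → Sys S T u δ g P w →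
    ∃ (s t : K) (G : MvPolynomial (Fin 2) L),
      IntermediateField.adjoin L {s, t} = IntermediateField.adjoin L (insert w (u '' S)) ∧ G ≠ 0 ∧
      aeval ![s, t] G = 0 ∧ Shape G := by
  classical
  intro v
  induction v with
  | zero =>
    intro S T g P w hv h
    have hS : S.card = 1 := by rw [h.card, hv]
    obtain ⟨a, rfl⟩ := Finset.card_eq_one.1 hS
    have hm : ∀ m ∈ P.support, m = Finsupp.single a (m a) := by
      intro m hm
      ext b
      rw [Finsupp.single_apply]
      split_ifs with hab
      · rw [hab]
      · have h1 := h.outP b (by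
          rw [Finset.mem_singleton]
          exact fun h' => hab h'.symm)
        exact Nat.le_zero.1 (degreeOf_le_iff.1 h1.le m hm)
    set P₁ : MvPolynomial (Fin 2) L :=
      ∑ m ∈ P.support, monomial (Finsupp.single 1 (m a)) (coeff m P) with hP₁
    have hsupp : ∀ m ∈ P₁.support, m 0 = 0 ∧ m 1 ≤ 4 := by
      intro m hm'
      rw [mem_support_iff, hP₁, coeff_sum] at hm'
      obtain ⟨m', hm'1, hm'2⟩ := Finset.exists_ne_zero_of_sum_ne_zero hm'
      rw [coeff_monomial] at hm'2
      have h2 : Finsupp.single 1 (m' a) = m := by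
        by_contra h3
        rw [if_neg h3] at hm'2
        exact hm'2 rfl
      have h3 := h.deg a (Finset.mem_singleton_self a)
      have h4 := degreeOf_le_iff.1 (le_refl (degreeOf a P)) m' hm'1
      rw [← h2]
      constructor
      · simp
      · rw [Finsupp.single_eq_same]
        omega
    refine ⟨w, u a, X 0 ^ 2 - P₁, ?_, ?_, ?_, Or.inr ?_⟩
    · rw [Finset.coe_singleton, Set.image_singleton]
    · intro h0
      have h1 := congrArg (coeff (Finsupp.single 0 2)) h0
      rw [coeff_sub, coeff_X_pow, if_pos rfl, coeff_zero] at h1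
      have h2 : coeff (Finsupp.single 0 2) P₁ = 0 := by
        by_contra h3
        have := (hsupp _ (mem_support_iff.2 h3)).1
        simp at this
      rw [h2, sub_zero] at h1
      exact one_ne_zero h1
    · rw [map_sub, map_pow, aeval_X, hP₁, map_sum]
      have h1 : ∑ m ∈ P.support, aeval ![w, u a]
          (monomial (Finsupp.single (1 : Fin 2) (m a)) (coeff m P) : MvPolynomial (Fin 2) L) =
          aeval u P := by
        conv_rhs => rw [P.as_sum, map_sum]
        refine Finset.sum_congr rfl fun m hm' => ?_
        have e1 : ∀ (n : ℕ) (c : L), aeval ![w, u a]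
            (monomial (Finsupp.single (1 : Fin 2) n) c : MvPolynomial (Fin 2) L) =
            algebraMap L K c * u a ^ n := by
          intro n c
          rw [aeval_monomial, Finsupp.prod_single_index (by simp)]
          rfl
        have e2 : ∀ (n : ℕ) (c : L), aeval u (monomial (Finsupp.single a n) c) =
            algebraMap L K c * u a ^ n := by
          intro n c
          rw [aeval_monomial, Finsupp.prod_single_index (by simp)]
        rw [e1, ← e2]
        conv_rhs => rw [hm m hm']
        rw [← hm m hm']
      rw [h1, ← h.cov]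
      simp
    · intro m hm'
      have h1 := support_sub _ _ _ hm'
      rw [Finset.mem_union] at h1
      rcases h1 with h1 | h1
      · rw [X_pow_eq_monomial, support_monomial, if_neg one_ne_zero, Finset.mem_singleton] at h1
        rw [h1]
        simp
      · have h2 := hsupp m h1
        omega
  | succ v ih =>
    intro S T g P w hv h
    by_cases hex : ∃ e ∈ S, ∃ l ∈ T, aeval u (pderiv e (g l)) ≠ 0 ∧ degreeOf e (g l) ≤ 1
    · obtain ⟨e, he, l, hl, hne, hd⟩ := hex
      obtain ⟨P', w', h1, h2, b, hb, hb0, hw'⟩ := h.elim_step he hl hne hd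
      obtain ⟨s, t, G, hst, hG⟩ := ih (S.erase e) (T.erase l) _ P' w'
        (by rw [Finset.card_erase_of_mem hl]; omega) h1
      refine ⟨s, t, G, hst.trans ?_, hG⟩
      have hsub : (u '' (S.erase e : Finset ι)) ⊆ u '' S :=
        Set.image_mono (Finset.coe_subset.2 (Finset.erase_subset _ _))
      apply le_antisymm
      · rw [IntermediateField.adjoin_le_iff]
        rintro y (rfl | hy)
        · rw [hw']
          exact mul_mem (IntermediateField.subset_adjoin _ _ (Set.mem_insert _ _))
            (IntermediateField.adjoin.mono _ _ _ (hsub.trans (Set.subset_insert _ _)) hb)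
        · exact IntermediateField.subset_adjoin _ _ (Set.mem_insert_of_mem _ (hsub hy))
      · rw [IntermediateField.adjoin_le_iff]
        have hb' : b ∈ IntermediateField.adjoin L (insert w' (u '' (S.erase e : Finset ι))) :=
          IntermediateField.adjoin.mono _ _ _ (Set.subset_insert _ _) hb
        rintro y (rfl | ⟨a, ha, rfl⟩)
        · have h3 : y = w' / b := by rw [hw', mul_div_cancel_right₀ _ hb0]
          rw [h3]
          exact div_mem (IntermediateField.subset_adjoin _ _ (Set.mem_insert _ _)) hb'
        · by_cases hae : a = e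
          · rw [hae]
            exact IntermediateField.adjoin.mono _ _ _ (Set.subset_insert _ _) h2
          · exact IntermediateField.subset_adjoin _ _ (Set.mem_insert_of_mem _
              ⟨a, Finset.mem_coe.2 (Finset.mem_erase.2 ⟨hae, ha⟩), rfl⟩)
    · -- one equation in two unknowns, the double cover is constant
      have hT1 : T.card = 1 := by
        by_contra hne
        exact hex (h.exists_elim (by omega))
      have hS : S.card = 2 := by rw [h.card, hT1]
      push Not at hex
      obtain ⟨l, rfl⟩ := Finset.card_eq_one.1 hT1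
      have hl : l ∈ ({l} : Finset κ) := Finset.mem_singleton_self l
      have hall : ∀ b ∈ S, 2 ≤ degreeOf b (g l) := by
        intro b hb
        obtain ⟨c, hc, hcb⟩ : ∃ c ∈ S, c ≠ b :=
          Finset.exists_mem_ne (by omega) b
        obtain ⟨b', hb', hb'c, hne⟩ := h.two_le hl c hc
        have hbb : b' = b := by
          by_contra h1
          have h2 : ({b', b, c} : Finset ι).card = 3 := by
            rw [Finset.card_eq_three]
            exact ⟨b', b, c, h1, hb'c, hcb.symm, rfl⟩
          have h3 : ({b', b, c} : Finset ι) ⊆ S := by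
            intro y hy
            simp only [Finset.mem_insert, Finset.mem_singleton] at hy
            rcases hy with rfl | rfl | rfl
            · exact hb'
            · exact hb
            · exact hc
          have h4 := Finset.card_le_card h3
          omega
        rw [hbb] at hne
        exact hex b hb l hl hne
      have hP0 : ∀ b, degreeOf b P = 0 := by
        intro b
        by_cases hb : b ∈ S
        · have h1 := h.deg b hb
          have h2 := hall b hb
          rw [Finset.sum_singleton] at h1
          omega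
        · exact h.outP b hb
      have hPC : P = C (coeff 0 P) := by
        ext m
        rw [coeff_C]
        split_ifs with h0
        · rw [h0]
        · by_contra h1
          apply h0
          symm
          ext b
          exact Nat.le_zero.1 (degreeOf_le_iff.1 (hP0 b).le m (mem_support_iff.2 h1))
      have hw : w ∈ Set.range (algebraMap L K) := by
        apply hcl
        have h1 : IsAlgebraic L (w ^ 2) := by
          rw [h.cov, hPC, aeval_C]
          exact isAlgebraic_algebraMap _
        exact h1.of_pow (by norm_num)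
      obtain ⟨a, b, hab, rfl⟩ := Finset.card_eq_two.1 hS
      let f : Fin 2 → ι := ![a, b]
      have hf : Function.Injective f := by
        intro i j hij
        fin_cases i <;> fin_cases j
        · rfl
        · exact absurd hij hab
        · exact absurd hij.symm hab
        · rfl
      have hvars : ((g l).vars : Set ι) ⊆ Set.range f := by
        intro c hc
        have h1 : c ∈ ({a, b} : Finset ι) := by
          by_contra h2
          have h3 := h.outside l hl c h2
          have h4 : c ∈ (g l).vars := hc
          obtain ⟨m, hm, hcm⟩ := (mem_vars_iff_mem_support _).1 h4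
          have h5 := degreeOf_le_iff.1 h3.le m hm
          exact (Finsupp.mem_support_iff.1 hcm) (Nat.le_zero.1 h5)
        rw [Finset.mem_insert, Finset.mem_singleton] at h1
        rcases h1 with rfl | rfl
        · exact ⟨0, rfl⟩
        · exact ⟨1, rfl⟩
      obtain ⟨G, hG⟩ : ∃ G : MvPolynomial (Fin 2) L, rename f G = g l :=
        exists_rename_eq_of_vars_subset_range (g l) f hf hvars
      refine ⟨u a, u b, G, ?_, ?_, ?_, Or.inl ?_⟩
      · have h1 : u '' (({a, b} : Finset ι) : Set ι) = {u a, u b} := by
          ext x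
          simp only [Set.mem_insert_iff, Set.mem_singleton_iff, Finset.coe_insert,
            Finset.coe_singleton, Set.mem_image, exists_eq_or_imp, exists_eq_left]
          rw [eq_comm (a := x), eq_comm (a := x)]
        rw [h1]
        apply le_antisymm
        · exact IntermediateField.adjoin.mono _ _ _ (Set.subset_insert _ _)
        · rw [IntermediateField.adjoin_le_iff]
          rintro y (rfl | hy)
          · obtain ⟨c, hc⟩ := hw
            rw [← hc]
            exact IntermediateField.algebraMap_mem _ _
          · exact IntermediateField.subset_adjoin _ _ hy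
      · rintro rfl
        obtain ⟨c, _, hc⟩ := h.exists_ne hl
        apply hc
        rw [← hG]
        simp
      · have h1 := h.zero l hl
        rw [← hG, aeval_rename] at h1
        have h2 : u ∘ f = ![u a, u b] := by
          funext i
          fin_cases i <;> rfl
        rwa [h2] at h1
      · have hdeg : ∀ i, degreeOf i G ≤ 2 := by
          intro i
          have h1 : degreeOf (f i) (rename f G) = degreeOf i G := degreeOf_rename_of_injective hf i
          have h2 : f i ∈ ({a, b} : Finset ι) := by
            fin_cases i <;> simp [f]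
          have h3 := h.deg (f i) h2
          rw [Finset.sum_singleton, ← hG, h1] at h3
          omega
        exact fun m hm => ⟨degreeOf_le_iff.1 (hdeg 0) m hm, degreeOf_le_iff.1 (hdeg 1) m hm⟩

end Sys

end fields

end Pool.Agent.V7H80.GC
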