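import Pool.Agent.V7H80.GC.Elim
import Pool.Agent.V7H80.GC.Circ
import Pool.Agent.H135R2.VS.Der
import Pool.Agent.Y200.CY.Qd

/-!
# Fibrations in curves on complete intersections of low degree
-/

set_option autoImplicit false
set_option linter.unusedSectionVars false

namespace Pool.Agent.V7H80.GC

open MvPolynomial

section subst

variable {ι Ω L : Type*} [Field Ω] [Field L] [Algebra Ω L]

open Classical in
/-- substitution of constants for the variables in `Z` -/
noncomputable def sub (Z : Set ι) (c : ι → L) : MvPolynomial ι Ω →ₐ[Ω] MvPolynomial ι L :=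
  aeval fun a => if a ∈ Z then C (c a) else X a

lemma aeval_sub {K : Type*} [Field K] [Algebra Ω K] [Algebra L K] [IsScalarTower Ω L K]
    (Z : Set ι) (c : ι → L) (x : ι → K) (hc : ∀ a ∈ Z, algebraMap L K (c a) = x a)
    (f : MvPolynomial ι Ω) : aeval x (sub Z c f) = aeval x f := by
  classical
  have h1 : ((aeval x : MvPolynomial ι L →ₐ[L] K).restrictScalars Ω).comp (sub Z c) =
      (aeval x : MvPolynomial ι Ω →ₐ[Ω] K) := by
    apply MvPolynomial.algHom_ext
    intro a
    rw [AlgHom.comp_apply, sub, aeval_X, aeval_X]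
    split_ifs with h
    · rw [AlgHom.restrictScalars_apply, aeval_C, hc a h]
    · rw [AlgHom.restrictScalars_apply, aeval_X]
  exact DFunLike.congr_fun h1 f

lemma pderiv_sub (Z : Set ι) (c : ι → L) {a : ι} (ha : a ∉ Z) (f : MvPolynomial ι Ω) :
    pderiv a (sub Z c f) = sub Z c (pderiv a f) := by
  classical
  induction f using MvPolynomial.induction_on with
  | C r =>
    rw [pderiv_C, map_zero, show (C r : MvPolynomial ι Ω) = algebraMap Ω _ r from rfl,
      AlgHom.commutes, IsScalarTower.algebraMap_apply Ω L (MvPolynomial ι L), algebraMap_eq,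
      pderiv_C]
  | add p q hp hq => rw [map_add, map_add, hp, hq, map_add, map_add]
  | mul_X p i hp =>
    rw [map_mul, pderiv_mul, hp, pderiv_mul, map_add, map_mul, map_mul]
    congr 2
    have hX : sub Z c (X i : MvPolynomial ι Ω) = if i ∈ Z then C (c i) else X i := by
      rw [sub, aeval_X]
    rw [hX]
    by_cases hi : i ∈ Z
    · have hai : i ≠ a := fun h => ha (h ▸ hi)
      rw [if_pos hi, pderiv_C, pderiv_X_of_ne hai, map_zero]
    · rw [if_neg hi]
      by_cases hai : i = a
      · rw [hai, pderiv_X_self, pderiv_X_self, map_one]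
      · rw [pderiv_X_of_ne hai, pderiv_X_of_ne hai, map_zero]

lemma degreeOf_sub_le (Z : Set ι) (c : ι → L) (a : ι) (f : MvPolynomial ι Ω) :
    degreeOf a (sub Z c f) ≤ degreeOf a f ∧ (a ∈ Z → degreeOf a (sub Z c f) = 0) := by
  classical
  have hmon : ∀ m ∈ f.support, degreeOf a (sub Z c (monomial m (coeff m f))) ≤
      if a ∈ Z then 0 else m a := by
    intro m _
    rw [sub, aeval_monomial]
    refine (degreeOf_mul_le _ _ _).trans ?_
    rw [IsScalarTower.algebraMap_apply Ω L (MvPolynomial ι L), algebraMap_eq, degreeOf_C, zero_add,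
      Finsupp.prod]
    refine (degreeOf_prod_le _ _ _).trans ?_
    calc ∑ i ∈ m.support, degreeOf a ((if i ∈ Z then C (c i) else X i : MvPolynomial ι L) ^ m i)
        ≤ ∑ i ∈ m.support, (if i = a then (if a ∈ Z then 0 else m a) else 0) := by
          refine Finset.sum_le_sum fun i _ => (degreeOf_pow_le _ _ _).trans ?_
          by_cases hi : i ∈ Z
          · rw [if_pos hi, degreeOf_C, mul_zero]
            exact Nat.zero_le _
          · rw [if_neg hi]
            by_cases hia : i = a
            · subst hia
              rw [if_pos rfl, if_neg hi, degreeOf_X_self, mul_one]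
            · rw [degreeOf_X_of_ne (Ne.symm hia), mul_zero]
              exact Nat.zero_le _
      _ ≤ if a ∈ Z then 0 else m a := by
          rw [Finset.sum_ite_eq']
          split_ifs <;> omega
  have hsum : sub Z c f = ∑ m ∈ f.support, sub Z c (monomial m (coeff m f)) := by
    conv_lhs => rw [f.as_sum, map_sum]
  constructor
  · rw [hsum]
    refine (degreeOf_sum_le _ _ _).trans (Finset.sup_le fun m hm => (hmon m hm).trans ?_)
    have h1 := degreeOf_le_iff.1 (le_refl (degreeOf a f)) m hm
    split_ifs <;> omega
  · intro ha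
    rw [← Nat.le_zero, hsum]
    refine (degreeOf_sum_le _ _ _).trans (Finset.sup_le fun m hm => (hmon m hm).trans ?_)
    rw [if_pos ha]

end subst

section fields

variable {Ω K : Type} [Field Ω] [Field K] [Algebra Ω K] {ι κ : Type}

/-- the field generated by the coordinates in `Z`, algebraically closed in `K` -/
noncomputable def Lz (Ω : Type) {K : Type} [Field Ω] [Field K] [Algebra Ω K] {ι : Type}
    (x : ι → K) (Z : Set ι) : IntermediateField Ω K :=
  (algebraicClosure (IntermediateField.adjoin Ω (x '' Z)) K).restrictScalars Ω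

lemma mem_Lz {x : ι → K} {Z : Set ι} {y : K} :
    y ∈ Lz Ω x Z ↔ IsAlgebraic (IntermediateField.adjoin Ω (x '' Z)) y := by
  rw [Lz, IntermediateField.mem_restrictScalars, mem_algebraicClosure_iff]

lemma coord_mem_Lz {x : ι → K} {Z : Set ι} {a : ι} (ha : a ∈ Z) : x a ∈ Lz Ω x Z := by
  rw [mem_Lz]
  exact isAlgebraic_algebraMap (⟨x a, IntermediateField.subset_adjoin _ _ ⟨a, ha, rfl⟩⟩ :
    IntermediateField.adjoin Ω (x '' Z))

lemma Lz_closed {x : ι → K} {Z : Set ι} (y : K) (hy : IsAlgebraic (Lz Ω x Z) y) :
    y ∈ Lz Ω x Z := by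
  rw [mem_Lz]
  have h2 : IsAlgebraic (algebraicClosure (IntermediateField.adjoin Ω (x '' Z)) K) y := hy
  have h3 : Algebra.IsAlgebraic (IntermediateField.adjoin Ω (x '' Z))
    (algebraicClosure (IntermediateField.adjoin Ω (x '' Z)) K) := inferInstance
  exact h2.restrictScalars _

/-- derivations and algebraic elements -/
lemma der_algebraic [CharZero Ω] (D : Derivation Ω K K) (E : IntermediateField Ω K)
    (hE : ∀ y ∈ E, D y = 0) {y : K} (hy : IsAlgebraic E y) : D y = 0 := by
  let D' : Derivation E K K :=
    { toFun := D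
      map_add' := fun a b => map_add D a b
      map_smul' := fun c a => by
        rw [RingHom.id_apply, Algebra.smul_def, Algebra.smul_def, Derivation.leibniz]
        have h1 : D (algebraMap E K c) = 0 := hE _ c.2
        rw [h1, smul_zero, add_zero, smul_eq_mul]
      map_one_eq_zero' := by
        change D 1 = 0
        exact D.map_one_eq_zero
      leibniz' := fun a b => D.leibniz a b }
  have hchar : CharZero K := charZero_of_injective_algebraMap (algebraMap Ω K).injective
  have hcharE : CharZero E := charZero_of_injective_algebraMap (algebraMap Ω E).injective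
  have hint : IsIntegral E y := hy.isIntegral
  have h1 : D' (Polynomial.aeval y (minpoly E y)) = 0 := by
    rw [minpoly.aeval, map_zero]
  rw [Derivation.map_aeval, smul_eq_mul] at h1
  have h2 : Polynomial.aeval y (Polynomial.derivative (minpoly E y)) ≠ 0 :=
    (minpoly.irreducible hint).separable.aeval_derivative_ne_zero (minpoly.aeval E y)
  exact (mul_eq_zero.1 h1).resolve_left h2

lemma der_adjoin (D : Derivation Ω K K) {S : Set K} (hS : ∀ y ∈ S, D y = 0) :
    ∀ y ∈ IntermediateField.adjoin Ω S, D y = 0 := by
  intro y hy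
  induction hy using IntermediateField.adjoin_induction with
  | mem z hz => exact hS z hz
  | algebraMap c => exact D.map_algebraMap c
  | add y z _ _ hy hz => rw [map_add, hy, hz, add_zero]
  | inv y _ hy => rw [Derivation.leibniz_inv, hy, smul_zero]
  | mul y z _ _ hy hz => rw [Derivation.leibniz, hy, hz, smul_zero, smul_zero, add_zero]

lemma der_Lz [CharZero Ω] {x : ι → K} {Z : Set ι} (D : Derivation Ω K K)
    (hD : ∀ a ∈ Z, D (x a) = 0) : ∀ y ∈ Lz Ω x Z, D y = 0 := by
  intro y hy
  refine der_algebraic D _ (der_adjoin D ?_) (mem_Lz.1 hy)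
  rintro _ ⟨a, ha, rfl⟩
  exact hD a ha

/-- the chain rule -/
lemma der_chain [Fintype ι] (x : ι → K) (D : Derivation Ω K K) (f : MvPolynomial ι Ω) :
    D (aeval x f) = ∑ a, aeval x (pderiv a f) * D (x a) := by
  classical
  induction f using MvPolynomial.induction_on with
  | C r =>
    rw [aeval_C, D.map_algebraMap]
    symm
    refine Finset.sum_eq_zero fun a _ => ?_
    rw [pderiv_C, map_zero, zero_mul]
  | add p q hp hq =>
    rw [map_add, map_add, hp, hq, ← Finset.sum_add_distrib]
    refine Finset.sum_congr rfl fun a _ => ?_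
    rw [map_add, map_add, add_mul]
  | mul_X p i hp =>
    rw [map_mul, aeval_X, D.leibniz, hp, smul_eq_mul, smul_eq_mul, Finset.mul_sum]
    have h1 : ∀ a, aeval x (pderiv a (p * X i)) * D (x a) =
        x i * (aeval x (pderiv a p) * D (x a)) + (if a = i then aeval x p * D (x a) else 0) := by
      intro a
      rw [pderiv_mul, map_add, map_mul, map_mul, aeval_X]
      by_cases hai : a = i
      · subst hai
        rw [pderiv_X_self, map_one, if_pos rfl]
        ring
      · rw [pderiv_X_of_ne (Ne.symm hai), map_zero, if_neg hai]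
        ring
    rw [Finset.sum_congr rfl fun a _ => h1 a, Finset.sum_add_distrib, Finset.sum_ite_eq',
      if_pos (Finset.mem_univ _)]
    ring

/-- The point `x` with coordinates in `K` is the generic point of a component of the variety
`f = 0`, at which the equations are transversal and which has the right dimension, and `K` is the
function field of the double cover `w ^ 2 = P(x)` of it; for every variable twice the sum of the
degrees of the equations `f l` plus the degree of `P` is at most four. -/
structure LowDegree [Fintype ι] [Fintype κ] (x : ι → K) (f : κ → MvPolynomial ι Ω)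
    (P : MvPolynomial ι Ω) (w : K) : Prop where
  gen : IntermediateField.adjoin Ω (insert w (Set.range x)) = ⊤
  zero : ∀ l, aeval x (f l) = 0
  indep : LinearIndependent K (fun l a => aeval x (pderiv a (f l)))
  dim : ∃ B : Finset ι, AlgebraicIndependent Ω (fun b : B => x b) ∧
    B.card + Fintype.card κ = Fintype.card ι
  cov : w ^ 2 = aeval x P
  deg : ∀ a, 2 * ∑ l, degreeOf a (f l) + degreeOf a P ≤ 4

variable [CharZero Ω] [Fintype ι] [Fintype κ] {x : ι → K} {f : κ → MvPolynomial ι Ω}
  {P : MvPolynomial ι Ω} {w : K}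

/-- the tangent space -/
noncomputable abbrev tang (x : ι → K) (f : κ → MvPolynomial ι Ω) : Submodule K (ι → K) :=
  kerOf fun l a => aeval x (pderiv a (f l))

lemma der_mem_tang (h0 : ∀ l, aeval x (f l) = 0) (D : Derivation Ω K K) :
    (fun a => D (x a)) ∈ tang x f := by
  intro l
  rw [← der_chain, h0, map_zero]

/-- the vector fields with given values -/
lemma LowDegree.exists_der [DecidableEq ι] [DecidableEq κ] (h : LowDegree x f P w) {v : ι → K}
    (hv : v ∈ tang x f) : ∃ D : Derivation Ω K K, ∀ a, D (x a) = v a := by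
  classical
  obtain ⟨B, hB, hcard⟩ := h.dim
  -- the dimension of the tangent space
  let M : Matrix κ ι K := fun l a => aeval x (pderiv a (f l))
  have hrank : M.rank = Fintype.card κ := LinearIndependent.rank_matrix (M := M) h.indep
  have hkerM : LinearMap.ker M.mulVecLin = tang x f := by
    ext w
    rw [LinearMap.mem_ker]
    constructor
    · intro hw l
      have := congrFun hw l
      rw [Matrix.mulVecLin_apply] at this
      exact this
    · intro hw
      funext l
      rw [Matrix.mulVecLin_apply]
      exact hw l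
  have hfin : Module.finrank K (tang x f) = B.card := by
    have h1 := LinearMap.finrank_range_add_finrank_ker M.mulVecLin
    rw [hkerM, Module.finrank_fintype_fun_eq_card] at h1
    have h2 : Module.finrank K (LinearMap.range M.mulVecLin) = M.rank := rfl
    rw [h2, hrank] at h1
    omega
  -- the restriction to `B`
  let R : tang x f →ₗ[K] (B → K) :=
    { toFun := fun w b => w.1 b
      map_add' := fun _ _ => rfl
      map_smul' := fun _ _ => rfl }
  have hsurj : Function.Surjective R := by
    intro c
    obtain ⟨D, hD⟩ := Pool.Agent.H135R2.VS.exists_der hB c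
    exact ⟨⟨fun a => D (x a), der_mem_tang h.zero D⟩, funext hD⟩
  have hinj : Function.Injective R := by
    rw [LinearMap.injective_iff_surjective_of_finrank_eq_finrank]
    · exact hsurj
    · rw [hfin, Module.finrank_fintype_fun_eq_card, Fintype.card_coe]
  obtain ⟨D, hD⟩ := Pool.Agent.H135R2.VS.exists_der hB fun b => v b
  refine ⟨D, ?_⟩
  have h1 : (⟨fun a => D (x a), der_mem_tang h.zero D⟩ : tang x f) = ⟨v, hv⟩ :=
    hinj (funext hD)
  intro a
  exact congrFun (congrArg Subtype.val h1) a

/-- **The fibration of a circuit.** -/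
theorem LowDegree.dcl [DecidableEq ι] [DecidableEq κ] (h : LowDegree x f P w) {v : ι → K}
    (hv : IsCircuit (tang x f) v) : Pool.Agent.Y200.CY.DCL (Lz Ω x {a | v a = 0}) := by
  classical
  set Z : Set ι := {a | v a = 0} with hZ
  set L := Lz Ω x Z with hL
  obtain ⟨D, hD⟩ := h.exists_der hv.1
  have hDL : ∀ y ∈ L, D y = 0 := der_Lz D fun a ha => by rw [hD]; exact ha
  obtain ⟨T, hT, hcard⟩ := circuit_rows _ hv
  let c : ι → L := fun a => if ha : a ∈ Z then ⟨x a, coord_mem_Lz ha⟩ else 0
  have hc : ∀ a ∈ Z, algebraMap L K (c a) = x a := by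
    intro a ha
    have : c a = ⟨x a, coord_mem_Lz ha⟩ := dif_pos ha
    rw [this]
    rfl
  have hns : ∀ a, a ∉ supp v ↔ a ∈ Z := by
    intro a
    rw [mem_supp, hZ, Set.mem_ofPred_eq, not_not]
  let g : κ → MvPolynomial ι L := fun l => sub Z c (f l)
  have hga : ∀ l, ∀ a ∈ supp v, aeval x (pderiv a (g l)) = aeval x (pderiv a (f l)) := by
    intro l a ha
    have haZ : a ∉ Z := fun h' => (hns a).2 h' ha
    rw [pderiv_sub Z c haZ, aeval_sub Z c x hc]
  have hsys : Sys (supp v) T x v g (sub Z c P) w := by
    refine ⟨hcard, ?_, ?_, ?_, ?_, ?_, ?_, ?_, ?_⟩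
    · intro l _ a ha
      exact (degreeOf_sub_le Z c a (f l)).2 ((hns a).1 ha)
    · intro l _
      rw [aeval_sub Z c x hc, h.zero]
    · intro c' hc'
      refine hT c' fun a ha => ?_
      rw [← hc' a]
      exact Finset.sum_congr rfl fun l _ => by rw [hga l a ha]
    · intro l _
      have h1 := hv.1 l
      rw [← h1]
      have h2 : ∑ a ∈ supp v, aeval x (pderiv a (g l)) * v a =
          ∑ a ∈ supp v, aeval x (pderiv a (f l)) * v a :=
        Finset.sum_congr rfl fun a ha => by rw [hga l a ha]
      rw [h2]
      apply Finset.sum_subset (Finset.subset_univ _)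
      intro a _ ha
      have : v a = 0 := (hns a).1 ha
      rw [this, mul_zero]
    · intro a ha
      exact mem_supp.1 ha
    · intro a ha
      exact (degreeOf_sub_le Z c a P).2 ((hns a).1 ha)
    · rw [aeval_sub Z c x hc]
      exact h.cov
    · intro a _
      have h1 : ∑ l ∈ T, degreeOf a (g l) ≤ ∑ l, degreeOf a (f l) :=
        (Finset.sum_le_sum fun l _ => (degreeOf_sub_le Z c a (f l)).1).trans
          (Finset.sum_le_sum_of_subset (Finset.subset_univ _))
      have h2 := (degreeOf_sub_le Z c a P).1
      have h3 := h.deg a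
      omega
  obtain ⟨s, t, G, hst, hG0, hG, hGd⟩ :=
    Sys.curve (fun y hy => ⟨⟨y, Lz_closed y hy⟩, rfl⟩) _ _ _ _ _ _ rfl hsys
  have htop : IntermediateField.adjoin L {s, t} = ⊤ := by
    rw [hst, ← top_le_iff]
    have h1 : (⊤ : IntermediateField Ω K) ≤
        (IntermediateField.adjoin L (insert w (x '' (supp v : Finset ι)))).restrictScalars Ω := by
      rw [← h.gen, IntermediateField.adjoin_le_iff]
      rintro _ (rfl | ⟨a, rfl⟩)
      · rw [SetLike.mem_coe, IntermediateField.mem_restrictScalars]
        exact IntermediateField.subset_adjoin _ _ (Set.mem_insert _ _)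
      rw [SetLike.mem_coe, IntermediateField.mem_restrictScalars]
      by_cases ha : a ∈ supp v
      · exact IntermediateField.subset_adjoin _ _ (Set.mem_insert_of_mem _ ⟨a, ha, rfl⟩)
      · exact IntermediateField.algebraMap_mem _ (⟨x a, coord_mem_Lz ((hns a).1 ha)⟩ : L)
    intro y _
    exact h1 (trivial : y ∈ (⊤ : IntermediateField Ω K))
  refine Pool.Agent.Y200.CY.Qd.qd Ω K L (fun a ha => Lz_closed a ha) s t htop ?_ G hG0 hG
    (by
      rcases hGd with h1 | h1
      · exact Or.inl h1
      · exact Or.inr (Or.inl h1))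
  rintro ⟨hs, ht⟩
  apply hv.2.1
  funext a
  rw [Pi.zero_apply, ← hD a]
  apply hDL
  have h1 : IntermediateField.adjoin L {s, t} ≤ ⊥ := by
    rw [IntermediateField.adjoin_le_iff]
    rintro y (rfl | rfl)
    · exact IntermediateField.algebraMap_mem _ (⟨y, hs⟩ : L)
    · exact IntermediateField.algebraMap_mem _ (⟨y, ht⟩ : L)
  rw [htop] at h1
  have h2 : x a ∈ (⊥ : IntermediateField L K) := h1 trivial
  rw [IntermediateField.mem_bot] at h2
  obtain ⟨y, hy⟩ := h2
  rw [← hy]
  exact y.2

/-- derivations are determined by their values on the coordinates -/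
lemma LowDegree.der_ext (h : LowDegree x f P w) {D D' : Derivation Ω K K}
    (hD : ∀ a, D (x a) = D' (x a)) : D = D' := by
  have h1 : ∀ y ∈ IntermediateField.adjoin Ω (Set.range x), (D - D') y = 0 := by
    apply der_adjoin
    rintro _ ⟨a, rfl⟩
    rw [Derivation.sub_apply, hD, sub_self]
  have hw : (D - D') w = 0 := by
    refine der_algebraic (D - D') _ h1 ?_
    have h2 : IsAlgebraic (IntermediateField.adjoin Ω (Set.range x)) (w ^ 2) := by
      rw [h.cov]
      have h3 : aeval x P ∈ IntermediateField.adjoin Ω (Set.range x) := by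
        classical
        have h4 := aeval_mem_adjoin (L := Ω) x (Set.univ : Set ι) P
          (fun a ha => absurd (Set.mem_univ a) ha)
        rwa [Set.image_univ] at h4
      exact isAlgebraic_algebraMap (⟨_, h3⟩ : IntermediateField.adjoin Ω (Set.range x))
    exact h2.of_pow (by norm_num)
  have h2 : ∀ y ∈ IntermediateField.adjoin Ω (insert w (Set.range x)), (D - D') y = 0 := by
    apply der_adjoin
    rintro _ (rfl | ⟨a, rfl⟩)
    · exact hw
    · exact h1 _ (IntermediateField.subset_adjoin _ _ ⟨a, rfl⟩)
  rw [h.gen] at h2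
  ext y
  have h3 := h2 y trivial
  rw [Derivation.sub_apply] at h3
  exact sub_eq_zero.1 h3

/-- **The vector fields tangent to the fibrations of the circuits span all vector fields.** -/
theorem LowDegree.span [DecidableEq ι] [DecidableEq κ] (h : LowDegree x f P w)
    (D : Derivation Ω K K) : D ∈ Submodule.span K {E : Derivation Ω K K |
      ∃ v, IsCircuit (tang x f) v ∧ ∀ y ∈ Lz Ω x {a | v a = 0}, E y = 0} := by
  classical
  have h1 : ∀ v ∈ Submodule.span K {v | IsCircuit (tang x f) v}, ∃ E ∈ Submodule.span K
      {E : Derivation Ω K K | ∃ v, IsCircuit (tang x f) v ∧ ∀ y ∈ Lz Ω x {a | v a = 0}, E y = 0},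
      ∀ a, E (x a) = v a := by
    intro v hv
    induction hv using Submodule.span_induction with
    | mem v hv =>
      obtain ⟨E, hE⟩ := h.exists_der hv.1
      exact ⟨E, Submodule.subset_span ⟨v, hv, der_Lz E fun a ha => by rw [hE]; exact ha⟩, hE⟩
    | zero => exact ⟨0, zero_mem _, fun a => rfl⟩
    | add v v' _ _ hv hv' =>
      obtain ⟨E, hE, h1⟩ := hv
      obtain ⟨E', hE', h1'⟩ := hv'
      exact ⟨E + E', add_mem hE hE', fun a => by
        rw [Derivation.add_apply, h1, h1', Pi.add_apply]⟩
    | smul c v _ hv =>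
      obtain ⟨E, hE, h1⟩ := hv
      exact ⟨c • E, Submodule.smul_mem _ _ hE, fun a => by
        rw [Derivation.smul_apply, h1, Pi.smul_apply]⟩
  obtain ⟨E, hE, h2⟩ := h1 (fun a => D (x a))
    (mem_span_circuits _ _ _ (der_mem_tang h.zero D) le_rfl)
  have h3 : D = E := h.der_ext fun a => (h2 a).symm
  rw [h3]
  exact hE

/-- there are no common invariants -/
theorem LowDegree.invariants [DecidableEq ι] [DecidableEq κ] (h : LowDegree x f P w) {y : K}
    (hy : ∀ v, IsCircuit (tang x f) v → IsAlgebraic (Lz Ω x {a | v a = 0}) y) :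
    IsAlgebraic Ω y := by
  classical
  have h1 : ∀ D : Derivation Ω K K, D y = 0 := by
    intro D
    have h2 := h.span D
    induction h2 using Submodule.span_induction with
    | mem E hE =>
      obtain ⟨v, hv, h3⟩ := hE
      exact h3 y (Lz_closed y (hy v hv))
    | zero => rfl
    | add E E' _ _ hE hE' => rw [Derivation.add_apply, hE, hE', add_zero]
    | smul c E _ hE => rw [Derivation.smul_apply, hE, smul_zero]
  by_contra hcon
  have h2 : AlgebraicIndependent Ω (fun _ : Unit => y) :=
    algebraicIndependent_unique_type_iff.2 hcon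
  obtain ⟨D, hD⟩ := Pool.Agent.H135R2.VS.exists_der h2 fun _ => 1
  have h3 := hD ()
  rw [h1] at h3
  exact zero_ne_one h3

end fields

end Pool.Agent.V7H80.GC
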