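import Pool.Agent.Y742.GG.Main

/-!
# Points over a finite extension, from fibrations in double covers of the line
-/

set_option autoImplicit false
set_option linter.unusedSectionVars false

open Pool.Agent.Y720.MZ MvPolynomial Pool.Agent.Y742.GG

namespace Pool.Agent.V7H80.GC

/-- the points over a finite extension are dense, also for the polynomials over the algebraic
closure -/
theorem ptsO (k₀ : Type) [Field k₀] [CharZero k₀] (hk₀ : FG k₀) {N m : ℕ}
    (F : MvPolynomial (Fin N) k₀)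
    (hF : Irreducible (map (algebraMap k₀ (AlgebraicClosure k₀)) F))
    {K : Type} [Field K] [Algebra (AlgebraicClosure k₀) K] {x : Fin N → K}
    (hx : IsGenericPoint (map (algebraMap k₀ (AlgebraicClosure k₀)) F) x)
    (L : Fin m → IntermediateField (AlgebraicClosure k₀) K)
    (hL : ∀ i, IsDoubleCoverOfLine (L i))
    (hgen : LieSubalgebra.lieSpan (AlgebraicClosure k₀) (Derivation (AlgebraicClosure k₀) K K)
      {D | ∃ i, ∀ a ∈ L i, D a = 0} = ⊤) :
    ∃ L' : IntermediateField k₀ (AlgebraicClosure k₀), FiniteDimensional k₀ L' ∧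
      ∀ G : MvPolynomial (Fin N) (AlgebraicClosure k₀), aeval x G ≠ 0 →
        ∃ y : Fin N → AlgebraicClosure k₀, (∀ l, y l ∈ L') ∧
          aeval y (map (algebraMap k₀ (AlgebraicClosure k₀)) F) = 0 ∧ aeval y G ≠ 0 := by
  classical
  have hcK : CharZero K := charZero_of_injective_algebraMap
    (algebraMap (AlgebraicClosure k₀) K).injective
  -- the fibrations with a derivation
  let J : Type := {i : Fin m // ∃ E : Derivation (AlgebraicClosure k₀) K K,
    E ≠ 0 ∧ ∀ a ∈ L i, E a = 0}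
  have hJ : Finite J := Subtype.finite
  have hinst : ∀ i : J, ∃ (D : Derivation (AlgebraicClosure k₀) K K) (μ : Mv K N),
      (∀ E' : Derivation (AlgebraicClosure k₀) K K, (∀ a ∈ L i.1, E' a = 0) →
        ∃ c : K, E' = c • D) ∧ (∀ l, μ.d l = D (x l)) ∧
      (∀ (k : Type) [Field k] (c : k →+* AlgebraicClosure k₀)
      (G : MvPolynomial (Fin N) k), eval₂ ((algebraMap (AlgebraicClosure k₀) K).comp c) x G = 0 →
        μ.Ok ((algebraMap (AlgebraicClosure k₀) K).comp c) G x) ∧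
      (dc (μ.w ^ 2) μ.q₁ μ.q₂ μ.q₃ μ.q₄ ≠ 0 → ∀ h, ∀ n : ℕ, n ≠ 0 →
        n • (.some (xs μ.w μ.q₁ μ.q₂) (ys μ.w μ.q₁ μ.q₂ μ.q₃) h :
          Pt μ.q₂ (rb μ.w μ.q₁ μ.q₃ μ.q₄) (rc μ.w μ.q₁ μ.q₂ μ.q₃ μ.q₄)) ≠ 0) := by
    rintro ⟨i, E, hE, hEL⟩
    obtain ⟨t, w, Q, ht, hw, hdeg, hQ, hg⟩ := hL i
    obtain ⟨D, hD, hDt, hall⟩ := exists_norm ht hw hQ hg hE hEL
    obtain ⟨μ, h1, h2, h3⟩ := inst x ht hw hdeg hQ hg D hD hDt
    exact ⟨D, μ, hall, h1, h2, h3⟩
  choose D μ hall hd hOk hinf using hinst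
  let e := Finite.equivFin J
  have hgen' : LieSubalgebra.lieSpan (AlgebraicClosure k₀)
      (Derivation (AlgebraicClosure k₀) K K)
      {E | ∃ i : Fin (Nat.card J), ∃ c : K, E = c • D (e.symm i)} = ⊤ := by
    rw [eq_top_iff, ← hgen]
    refine LieSubalgebra.lieSpan_le.2 ?_
    rintro E ⟨i, hi⟩
    by_cases hE : E = 0
    · rw [hE]
      exact LieSubalgebra.zero_mem _
    · let i' : J := ⟨i, E, hE, hi⟩
      obtain ⟨c, hc⟩ := hall i' E hi
      exact LieSubalgebra.subset_lieSpan ⟨e i', c, by rw [Equiv.symm_apply_apply]; exact hc⟩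
  obtain ⟨L', hL', hLd⟩ := asm k₀ hk₀ F hF hx.zero_iff hx.generates (fun i => D (e.symm i))
    (fun i => μ (e.symm i)) (fun i => hd _) (fun i => hOk _) (fun i => hinf _) hgen'
  refine ⟨L', hL', fun G hG => ?_⟩
  by_contra hcon
  push Not at hcon
  refine hG ((hx.zero_iff G).2 (hLd G fun y hy1 hy2 => ?_))
  have h1 : ∀ (H : MvPolynomial (Fin N) (AlgebraicClosure k₀)), eval y H = aeval y H := by
    intro H
    rw [aeval_eq_eval]
  rw [h1] at hy2 ⊢
  exact hcon y hy1 hy2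

end Pool.Agent.V7H80.GC
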